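import Pool.Agent.Lib_helper31.Braid.Induct

/-!
Basis-conjugating automorphisms of a free group of finite rank: every nontrivial one is detected.
-/

set_option autoImplicit false

namespace H31Braid

open Subgroup

/-- The group of basis-conjugating automorphisms (McCool group). -/
def PSig (X : Type) : Subgroup (MulAut (FreeGroup X)) where
  carrier := {α | ∀ x, ∃ u, α (FreeGroup.of x) = u * FreeGroup.of x * u⁻¹}
  one_mem' := fun x => ⟨1, by simp⟩
  mul_mem' := by
    intro α β hα hβ x
    obtain ⟨u, hu⟩ := hβ x
    obtain ⟨v, hv⟩ := hα x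
    refine ⟨α u * v, ?_⟩
    rw [MulAut.mul_apply, hu, map_mul, map_mul, hv, map_inv]
    group
  inv_mem' := by
    intro α hα x
    obtain ⟨u, hu⟩ := hα x
    refine ⟨(α⁻¹ u)⁻¹, ?_⟩
    apply α.injective
    simp only [map_mul, map_inv, MulAut.apply_inv_self, hu]
    group

/-- the holomorph -/
abbrev Hol (X : Type) : Type := FreeGroup X ⋊[MonoidHom.id (MulAut (FreeGroup X))] MulAut (FreeGroup X)

/-- the free family in the holomorph -/
def hb (X : Type) : X → Hol X := fun x => SemidirectProduct.inl (FreeGroup.of x)

lemma inl_mem {X : Type} (v : FreeGroup X) :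
    (SemidirectProduct.inl v : Hol X) ∈ closure (Set.range (hb X)) := by
  induction v using FreeGroup.induction_on with
  | C1 => simp
  | of x => exact subset_closure ⟨x, rfl⟩
  | inv_of x h => rw [map_inv]; exact inv_mem h
  | mul u v hu hv => rw [map_mul]; exact mul_mem hu hv

lemma right_eq_one {X : Type} {e : Hol X} (he : e ∈ closure (Set.range (hb X))) : e.right = 1 := by
  have h1 : closure (Set.range (hb X)) ≤ (SemidirectProduct.rightHom : Hol X →* _).ker := by
    rw [closure_le]
    rintro _ ⟨x, rfl⟩
    simp [hb]
  exact h1 he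

lemma FB_hb (X : Type) : FB (hb X) := by
  intro A _ c
  refine ⟨fun e => FreeGroup.lift c e.left, ?_, ?_⟩
  · intro u hu v hv
    change FreeGroup.lift c (u * v).left = FreeGroup.lift c u.left * FreeGroup.lift c v.left
    rw [SemidirectProduct.mul_left, right_eq_one hu]
    simp
  · intro x
    simp [hb]

theorem detect_PSig {X : Type} [Finite X] [Nontrivial X] {α : MulAut (FreeGroup X)}
    (hne : α ≠ 1) : Detect (PSig X) α := by
  let K : Subgroup (Hol X) := (PSig X).comap SemidirectProduct.rightHom
  have hK : K.comap SemidirectProduct.inr = PSig X := by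
    ext β
    simp [K]
  rw [← hK]
  apply Detect.comap
  -- an element moved by `α`
  obtain ⟨x, hx⟩ : ∃ x, α (FreeGroup.of x) ≠ FreeGroup.of x := by
    by_contra hcon
    push Not at hcon
    apply hne
    have : α.toMonoidHom = MonoidHom.id _ := by
      apply FreeGroup.ext_hom
      intro x
      exact hcon x
    ext v
    exact congrArg (fun f => f v) this
  have hbK : ∀ x, hb X x ∈ K := by
    intro x
    simp [K, hb, one_mem]
  apply Detect.of_commutator (hbK x)
  have h1 : (SemidirectProduct.inr α : Hol X) * hb X x * (SemidirectProduct.inr α)⁻¹ * (hb X x)⁻¹ =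
      SemidirectProduct.inl (α (FreeGroup.of x) * (FreeGroup.of x)⁻¹) := by
    have h2 := SemidirectProduct.inl_aut (φ := MonoidHom.id (MulAut (FreeGroup X))) α (FreeGroup.of x)
    rw [MonoidHom.id_apply] at h2
    rw [map_mul, h2, map_inv, map_inv]
    rfl
  rw [h1]
  apply detect_free (hb X) K (FB_hb X) hbK ?_ (inl_mem _)
  · intro h3
    apply hx
    have h4 : (SemidirectProduct.inl (α (FreeGroup.of x) * (FreeGroup.of x)⁻¹) : Hol X) =
        SemidirectProduct.inl 1 := by rw [h3, map_one]
    exact mul_inv_eq_one.1 (SemidirectProduct.inl_injective h4)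
  · intro k hk y
    obtain ⟨c, hc⟩ : ∃ u, k.right (FreeGroup.of y) = u * FreeGroup.of y * u⁻¹ := hk y
    refine ⟨SemidirectProduct.inl (k.left * c), inl_mem _, ?_⟩
    have h2 := SemidirectProduct.inl_aut (φ := MonoidHom.id (MulAut (FreeGroup X))) k.right
      (FreeGroup.of y)
    rw [MonoidHom.id_apply, hc] at h2
    have h3 : k = SemidirectProduct.inl k.left * SemidirectProduct.inr k.right :=
      (SemidirectProduct.inl_left_mul_inr_right k).symm
    calc k * hb X y * k⁻¹ = (SemidirectProduct.inl k.left * SemidirectProduct.inr k.right) *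
            hb X y * (SemidirectProduct.inl k.left * SemidirectProduct.inr k.right)⁻¹ := by
            rw [← h3]
      _ = SemidirectProduct.inl k.left *
          (SemidirectProduct.inr k.right * SemidirectProduct.inl (FreeGroup.of y) *
            SemidirectProduct.inr k.right⁻¹) * (SemidirectProduct.inl k.left)⁻¹ := by
            simp only [hb, map_inv, mul_inv_rev, mul_assoc]
      _ = _ := by
            rw [← h2]
            simp only [hb, map_mul, map_inv, mul_inv_rev, mul_assoc]

/-- A group acting faithfully by basis-conjugating automorphisms: all elements are detected. -/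
theorem detect_of_action {X : Type} [Finite X] [Nontrivial X] {G : Type} [Group G]
    (Φ : G →* MulAut (FreeGroup X)) (H : Subgroup G) (hH : ∀ h ∈ H, Φ h ∈ PSig X)
    (h : H) (hne : Φ h ≠ 1) : Detect (⊤ : Subgroup H) h := by
  have h1 : (PSig X).comap (Φ.comp H.subtype) = ⊤ := by
    rw [eq_top_iff]
    intro x _
    exact hH x x.2
  rw [← h1]
  exact Detect.comap _ (detect_PSig hne)

end H31Braid
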