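import Mathlib

/-!
Chains of subgroups as in the definition of RFRS groups, inside an ambient group.
-/

set_option autoImplicit false

namespace H31Braid

open Subgroup

/-- `B ≤ A` is a legal RFRS step: finite index, containing the rational-abelianization kernel. -/
structure Step {E : Type*} [Group E] (A B : Subgroup E) : Prop where
  le : B ≤ A
  fin : B.relIndex A ≠ 0
  ker : ∀ x ∈ A, (∃ k : ℕ, 0 < k ∧ x ^ k ∈ ⁅A, A⁆) → x ∈ B

namespace Step
variable {E : Type*} [Group E]

lemma refl (A : Subgroup E) : Step A A :=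
  ⟨le_rfl, by simp, fun x hx _ => hx⟩

lemma inf {A B A' B' : Subgroup E} (h : Step A B) (h' : Step A' B') :
    Step (A ⊓ A') (B ⊓ B') := by
  refine ⟨inf_le_inf h.le h'.le, ?_, ?_⟩
  · have h1 : B.relIndex (A ⊓ A') ≠ 0 := fun h0 =>
      h.fin (relIndex_eq_zero_of_le_right inf_le_left h0)
    have h2 : B'.relIndex (A ⊓ A') ≠ 0 := fun h0 =>
      h'.fin (relIndex_eq_zero_of_le_right inf_le_right h0)
    exact relIndex_inf_ne_zero h1 h2
  · rintro x ⟨hx, hx'⟩ ⟨k, hk, hxk⟩
    exact ⟨h.ker x hx ⟨k, hk, commutator_mono inf_le_left inf_le_left hxk⟩,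
      h'.ker x hx' ⟨k, hk, commutator_mono inf_le_right inf_le_right hxk⟩⟩

lemma comap {E' : Type*} [Group E'] (f : E' →* E) {A B : Subgroup E} (h : Step A B) :
    Step (A.comap f) (B.comap f) := by
  refine ⟨comap_mono h.le, relIndex_comap_ne_zero f h.fin, ?_⟩
  rintro x hx ⟨k, hk, hxk⟩
  refine h.ker (f x) hx ⟨k, hk, ?_⟩
  rw [← map_pow]
  have : (⁅A.comap f, A.comap f⁆).map f ≤ ⁅A, A⁆ := by
    rw [map_commutator]
    exact commutator_mono (map_comap_le _ _) (map_comap_le _ _)
  exact this (mem_map_of_mem f hxk)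

end Step

/-- A chain of legal steps starting from `K`. -/
structure IsChain' {E : Type*} [Group E] (K : Subgroup E) (C : ℕ → Subgroup E) : Prop where
  zero : C 0 = K
  step : ∀ i, Step (C i) (C (i + 1))

/-- `g` can be excluded by a chain of legal steps starting from `K`. -/
def Detect {E : Type*} [Group E] (K : Subgroup E) (g : E) : Prop :=
  ∃ C, IsChain' K C ∧ ∃ i, g ∉ C i

section
variable {E : Type*} [Group E]

lemma Detect.cons {K K₁ : Subgroup E} {g : E} (h : Step K K₁) (hd : Detect K₁ g) :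
    Detect K g := by
  obtain ⟨C, hC, i, hi⟩ := hd
  refine ⟨fun n => Nat.casesOn n K (fun m => C m), ⟨rfl, ?_⟩, i + 1, hi⟩
  intro n
  cases n with
  | zero =>
    change Step K (C 0)
    rw [hC.zero]; exact h
  | succ m => exact hC.step m

lemma Detect.of_step {K K₁ : Subgroup E} {g : E} (h : Step K K₁) (hg : g ∉ K₁) :
    Detect K g :=
  Detect.cons h ⟨fun _ => K₁, ⟨rfl, fun _ => Step.refl _⟩, 0, hg⟩

lemma Detect.comap {E' : Type*} [Group E'] (f : E' →* E) {K : Subgroup E} {g : E'}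
    (h : Detect K (f g)) : Detect (K.comap f) g := by
  obtain ⟨C, hC, i, hi⟩ := h
  refine ⟨fun n => (C n).comap f, ⟨?_, fun n => (hC.step n).comap f⟩, i, hi⟩
  rw [hC.zero]

/-- conjugation invariance -/
lemma Detect.conj {K : Subgroup E} {g h : E} (hh : h ∈ K)
    (hd : Detect K (h * g * h⁻¹)) : Detect K g := by
  have h1 : Detect (K.comap (MulAut.conj h).toMonoidHom) g := by
    apply Detect.comap
    simpa using hd
  have h2 : K.comap (MulAut.conj h).toMonoidHom = K := by
    ext x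
    simp only [mem_comap, MulEquiv.coe_toMonoidHom, MulAut.conj_apply]
    constructor
    · intro hx
      have := K.mul_mem (K.mul_mem (K.inv_mem hh) hx) hh
      simpa [mul_assoc] using this
    · intro hx
      exact K.mul_mem (K.mul_mem hh hx) (K.inv_mem hh)
  rwa [h2] at h1

/-- If a commutator `g h g⁻¹ h⁻¹` with `h ∈ K` is detected, so is `g`. -/
lemma Detect.of_commutator {K : Subgroup E} {g h : E} (hh : h ∈ K)
    (hd : Detect K (g * h * g⁻¹ * h⁻¹)) : Detect K g := by
  obtain ⟨C, hC, i, hi⟩ := hd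
  have hKc : K.comap (MulAut.conj h).toMonoidHom = K := by
    ext x
    simp only [mem_comap, MulEquiv.coe_toMonoidHom, MulAut.conj_apply]
    constructor
    · intro hx
      have := K.mul_mem (K.mul_mem (K.inv_mem hh) hx) hh
      simpa [mul_assoc] using this
    · intro hx
      exact K.mul_mem (K.mul_mem hh hx) (K.inv_mem hh)
  refine ⟨fun n => C n ⊓ (C n).comap (MulAut.conj h).toMonoidHom, ⟨?_, ?_⟩, i, ?_⟩
  · change C 0 ⊓ (C 0).comap (MulAut.conj h).toMonoidHom = K
    rw [hC.zero, hKc, inf_idem]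
  · intro n
    exact (hC.step n).inf ((hC.step n).comap _)
  · rintro ⟨h1, h2⟩
    apply hi
    have h3 : h * g * h⁻¹ ∈ C i := by simpa using h2
    have h4 := (C i).mul_mem h1 ((C i).inv_mem h3)
    have h5 : g * (h * g * h⁻¹)⁻¹ = g * h * g⁻¹ * h⁻¹ := by group
    rwa [h5] at h4

end

section assemble

variable {G : Type*} [Group G]

lemma Step.normalCore {A B : Subgroup G} (h : Step A B) (hB : B.index ≠ 0) :
    Step A.normalCore B.normalCore := by
  refine ⟨normalCore_mono h.le, ?_, ?_⟩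
  · haveI : B.FiniteIndex := ⟨hB⟩
    have : B.normalCore.index ≠ 0 := (inferInstance : B.normalCore.FiniteIndex).index_ne_zero
    intro h0
    apply this
    exact index_eq_zero_of_relIndex_eq_zero h0
  · rintro x hx ⟨k, hk, hxk⟩ g
    apply h.ker (g * x * g⁻¹) (hx g)
    refine ⟨k, hk, ?_⟩
    rw [conj_pow]
    have h1 : g * x ^ k * g⁻¹ ∈ ⁅A.normalCore, A.normalCore⁆ :=
      (inferInstance : (⁅A.normalCore, A.normalCore⁆).Normal).conj_mem _ hxk g
    exact commutator_mono (normalCore_le A) (normalCore_le A) h1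

lemma IsChain'.index_ne_zero {C : ℕ → Subgroup G} (h : IsChain' ⊤ C) (i : ℕ) :
    (C i).index ≠ 0 := by
  induction i with
  | zero => rw [h.zero]; simp
  | succ n ih =>
    rw [← relIndex_mul_index (h.step n).le]
    exact mul_ne_zero (h.step n).fin ih

/-- Putting the chains together. -/
theorem exists_chain_of_detect [Countable G] (h : ∀ g : G, g ≠ 1 → Detect (⊤ : Subgroup G) g) :
    ∃ Gs : ℕ → Subgroup G,
        Gs 0 = ⊤ ∧
        (∀ i, (Gs i).Normal) ∧
        (∀ i, (Gs i).FiniteIndex) ∧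
        (∀ i, Gs (i + 1) ≤ Gs i) ∧
        (⨅ i, Gs i) = ⊥ ∧
        (∀ i, ∀ g ∈ Gs i, (∃ k : ℕ, 0 < k ∧ g ^ k ∈ ⁅Gs i, Gs i⁆) → g ∈ Gs (i + 1)) := by
  have h' : ∀ g : G, ∃ C : ℕ → Subgroup G, IsChain' ⊤ C ∧ (g ≠ 1 → ∃ i, g ∉ C i) := by
    intro g
    by_cases hg : g = 1
    · exact ⟨fun _ => ⊤, ⟨rfl, fun _ => Step.refl _⟩, fun h0 => absurd hg h0⟩
    · obtain ⟨C, hC, hi⟩ := h g hg
      exact ⟨C, hC, fun _ => hi⟩
  choose C hC hCi using h'
  obtain ⟨f, hf⟩ := exists_surjective_nat G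
  let N : ℕ → ℕ → Subgroup G := fun j i => (C (f j) i).normalCore
  have hN0 : ∀ j, N j 0 = ⊤ := by
    intro j
    change (C (f j) 0).normalCore = ⊤
    rw [(hC (f j)).zero]
    exact normalCore_eq_self ⊤
  have hNstep : ∀ j i, Step (N j i) (N j (i + 1)) := fun j i =>
    ((hC (f j)).step i).normalCore ((hC (f j)).index_ne_zero (i + 1))
  have hNfin : ∀ j i, (N j i).FiniteIndex := by
    intro j i
    haveI : (C (f j) i).FiniteIndex := ⟨(hC (f j)).index_ne_zero i⟩
    exact (inferInstance : (C (f j) i).normalCore.FiniteIndex)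
  let Gs : ℕ → Subgroup G := fun i => ⨅ j : Fin (i + 1), N j (i - j)
  have hmem : ∀ i x, x ∈ Gs i ↔ ∀ j, j ≤ i → x ∈ N j (i - j) := by
    intro i x
    simp only [Gs, mem_iInf]
    constructor
    · intro hx j hj
      exact hx ⟨j, Nat.lt_succ_of_le hj⟩
    · intro hx j
      exact hx j (Nat.le_of_lt_succ j.2)
  have hle : ∀ i j, j ≤ i → Gs i ≤ N j (i - j) := fun i j hj x hx => (hmem i x).1 hx j hj
  refine ⟨Gs, ?_, ?_, ?_, ?_, ?_, ?_⟩
  · ext x
    simp only [hmem, mem_top, iff_true]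
    intro j hj
    have : j = 0 := Nat.le_zero.1 hj
    subst this
    simp [hN0]
  · intro i
    refine ⟨fun x hx g => ?_⟩
    rw [hmem] at hx ⊢
    intro j hj
    exact (inferInstance : (C (f j) (i - j)).normalCore.Normal).conj_mem _ (hx j hj) g
  · intro i
    exact finiteIndex_iInf (fun j => hNfin _ _)
  · intro i x hx
    rw [hmem] at hx ⊢
    intro j hj
    have h1 := hx j (Nat.le_succ_of_le hj)
    have h2 : i + 1 - j = (i - j) + 1 := by omega
    rw [h2] at h1
    exact (hNstep j (i - j)).le h1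
  · rw [eq_bot_iff]
    intro x hx
    rw [mem_bot]
    by_contra hne
    obtain ⟨j, rfl⟩ := hf x
    obtain ⟨i, hi⟩ := hCi (f j) hne
    apply hi
    rw [mem_iInf] at hx
    have h1 := hle (i + j) j (Nat.le_add_left _ _) (hx (i + j))
    rw [Nat.add_sub_cancel] at h1
    exact normalCore_le _ h1
  · rintro i x hx ⟨k, hk, hxk⟩
    rw [hmem]
    intro j hj
    rcases Nat.lt_or_ge i j with hlt | hge
    · have : j = i + 1 := by omega
      subst this
      simp [hN0]
    · have h2 : i + 1 - j = (i - j) + 1 := by omega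
      rw [h2]
      apply (hNstep j (i - j)).ker x (hle i j hge hx)
      exact ⟨k, hk, commutator_mono (hle i j hge) (hle i j hge) hxk⟩

end assemble

end H31Braid
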