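import Mathlib

/-!
Artin combing, in an abstract group satisfying the braid relations.
-/

set_option autoImplicit false

namespace H31Braid

open Subgroup

section comb
variable {G : Type} [Group G]

/-- the braid relations for the first `N` terms of a sequence -/
structure Rel (r : ℕ → G) (N : ℕ) : Prop where
  braid : ∀ i, i + 1 < N → r i * r (i + 1) * r i = r (i + 1) * r i * r (i + 1)
  comm : ∀ i j, i + 2 ≤ j → j < N → r i * r j = r j * r i

/-- `T r d = r 0 * r 1 * ... * r (d-1)` -/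
def T (r : ℕ → G) : ℕ → G
  | 0 => 1
  | d + 1 => T r d * r d

/-- the pure generators `A r d = T d * (r d)^2 * (T d)⁻¹` -/
def Ag (r : ℕ → G) (d : ℕ) : G := T r d * (r d * r d) * (T r d)⁻¹

/-- the first `N` terms -/
def gs (r : ℕ → G) (N : ℕ) : Set G := {g | ∃ i, i < N ∧ r i = g}

/-- shifted sequence -/
def sh (r : ℕ → G) : ℕ → G := fun i => r (i + 1)

variable {r : ℕ → G} {M : ℕ}

lemma Rel.shift (h : Rel r (M + 1)) : Rel (sh r) M :=
  ⟨fun i hi => h.braid (i + 1) (by omega), fun i j hij hj => h.comm (i + 1) (j + 1) (by omega) (by omega)⟩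

lemma Rel.T_comm (h : Rel r M) (d j : ℕ) (hd : d + 1 ≤ j) (hj : j < M) :
    T r d * r j = r j * T r d := by
  induction d with
  | zero => simp [T]
  | succ d ih =>
    rw [T, mul_assoc, h.comm d j (by omega) hj, ← mul_assoc, ih (by omega), mul_assoc]

lemma Rel.T_shift (h : Rel r M) (d j : ℕ) (hj : j + 2 ≤ d) (hd : d ≤ M) :
    T r d * r j = r (j + 1) * T r d := by
  induction d with
  | zero => omega
  | succ d ih =>
    rcases Nat.lt_or_ge d (j + 2) with hlt | hge
    · have : d = j + 1 := by omega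
      subst this
      have h1 : T r (j + 1 + 1) = T r j * r j * r (j + 1) := rfl
      calc T r (j + 1 + 1) * r j = T r j * (r j * r (j + 1) * r j) := by rw [h1]; group
        _ = T r j * (r (j + 1) * r j * r (j + 1)) := by rw [h.braid j (by omega)]
        _ = (T r j * r (j + 1)) * r j * r (j + 1) := by group
        _ = (r (j + 1) * T r j) * r j * r (j + 1) := by rw [h.T_comm j (j + 1) (by omega) (by omega)]
        _ = r (j + 1) * T r (j + 1 + 1) := by rw [h1]; group
    · calc T r (d + 1) * r j = T r d * (r d * r j) := by rw [T]; group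
        _ = T r d * (r j * r d) := by rw [h.comm j d (by omega) (by omega)]
        _ = (T r d * r j) * r d := by group
        _ = (r (j + 1) * T r d) * r d := by rw [ih (by omega) (by omega)]
        _ = r (j + 1) * T r (d + 1) := by rw [T]; group

/-- conjugation formulas -/
lemma Rel.conj_far (h : Rel r M) (i d : ℕ) (hd : i + 2 ≤ d) (hdM : d < M) :
    r (i + 1) * Ag r d * (r (i + 1))⁻¹ = Ag r d := by
  have h1 := h.T_shift d i hd hdM.le
  have h2 := h.comm i d hd hdM
  have h3 : r (i + 1) = T r d * r i * (T r d)⁻¹ := by rw [h1]; group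
  rw [h3, Ag]
  calc T r d * r i * (T r d)⁻¹ * (T r d * (r d * r d) * (T r d)⁻¹) * (T r d * r i * (T r d)⁻¹)⁻¹
      = T r d * ((r i * r d) * r d * (r i)⁻¹) * (T r d)⁻¹ := by group
    _ = T r d * ((r d * r i) * r d * (r i)⁻¹) * (T r d)⁻¹ := by rw [h2]
    _ = T r d * (r d * (r i * r d) * (r i)⁻¹) * (T r d)⁻¹ := by group
    _ = T r d * (r d * (r d * r i) * (r i)⁻¹) * (T r d)⁻¹ := by rw [h2]
    _ = _ := by group

lemma Rel.conj_near (h : Rel r M) (i d : ℕ) (hd : d + 1 ≤ i) (hi : i + 1 < M) :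
    r (i + 1) * Ag r d * (r (i + 1))⁻¹ = Ag r d := by
  have h1 := h.T_comm d (i + 1) (by omega) hi
  have h2 := h.comm d (i + 1) (by omega) hi
  have h3 : r (i + 1) = T r d * r (i + 1) * (T r d)⁻¹ := by rw [h1]; group
  calc r (i + 1) * Ag r d * (r (i + 1))⁻¹
      = (T r d * r (i + 1) * (T r d)⁻¹) * Ag r d * (T r d * r (i + 1) * (T r d)⁻¹)⁻¹ := by rw [← h3]
    _ = T r d * ((r (i + 1) * r d) * r d * (r (i + 1))⁻¹) * (T r d)⁻¹ := by rw [Ag]; group
    _ = T r d * ((r d * r (i + 1)) * r d * (r (i + 1))⁻¹) * (T r d)⁻¹ := by rw [h2]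
    _ = T r d * (r d * (r (i + 1) * r d) * (r (i + 1))⁻¹) * (T r d)⁻¹ := by group
    _ = T r d * (r d * (r d * r (i + 1)) * (r (i + 1))⁻¹) * (T r d)⁻¹ := by rw [h2]
    _ = _ := by rw [Ag]; group

lemma Rel.conj_succ (h : Rel r M) (i : ℕ) (hi : i + 1 < M) :
    r (i + 1) * Ag r (i + 1) * (r (i + 1))⁻¹ = Ag r i := by
  have h1 := h.T_comm i (i + 1) (by omega) hi
  have hb := h.braid i hi
  have h3 : r (i + 1) = T r i * r (i + 1) * (T r i)⁻¹ := by rw [h1]; group
  have hb2 : r (i + 1) * (r i)⁻¹ * (r (i + 1))⁻¹ = (r i)⁻¹ * (r (i + 1))⁻¹ * r i := by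
    have : r i * (r (i + 1) * (r i)⁻¹ * (r (i + 1))⁻¹) * (r (i + 1) * r i)
        = r i * ((r i)⁻¹ * (r (i + 1))⁻¹ * r i) * (r (i + 1) * r i) := by
      calc r i * (r (i + 1) * (r i)⁻¹ * (r (i + 1))⁻¹) * (r (i + 1) * r i) = r i * r (i + 1) := by
            group
        _ = (r (i + 1))⁻¹ * (r (i + 1) * r i * r (i + 1)) := by group
        _ = (r (i + 1))⁻¹ * (r i * r (i + 1) * r i) := by rw [hb]
        _ = _ := by group
    exact mul_left_cancel (mul_right_cancel this)
  calc r (i + 1) * Ag r (i + 1) * (r (i + 1))⁻¹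
      = (T r i * r (i + 1) * (T r i)⁻¹) * Ag r (i + 1) * (T r i * r (i + 1) * (T r i)⁻¹)⁻¹ := by
        rw [← h3]
    _ = T r i * ((r (i + 1) * r i * r (i + 1)) *
          (r (i + 1) * (r i)⁻¹ * (r (i + 1))⁻¹)) * (T r i)⁻¹ := by
        rw [Ag, T]; group
    _ = T r i * ((r i * r (i + 1) * r i) * ((r i)⁻¹ * (r (i + 1))⁻¹ * r i)) * (T r i)⁻¹ := by
        rw [hb2, hb]
    _ = _ := by rw [Ag]; group

lemma Rel.conj_self (h : Rel r M) (i : ℕ) (hi : i + 1 < M) :
    r (i + 1) * Ag r i * (r (i + 1))⁻¹ = (Ag r i)⁻¹ * Ag r (i + 1) * Ag r i := by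
  have h1 := h.T_comm i (i + 1) (by omega) hi
  have hb := h.braid i hi
  have h3 : r (i + 1) = T r i * r (i + 1) * (T r i)⁻¹ := by rw [h1]; group
  -- `r_{i+1} r_i² r_{i+1}⁻¹ = r_i⁻¹ r_{i+1}² r_i`
  have hb2 : r (i + 1) * r i * (r (i + 1))⁻¹ = (r i)⁻¹ * r (i + 1) * r i := by
    have : r i * (r (i + 1) * r i * (r (i + 1))⁻¹) * r (i + 1) =
        r i * ((r i)⁻¹ * r (i + 1) * r i) * r (i + 1) := by
      calc r i * (r (i + 1) * r i * (r (i + 1))⁻¹) * r (i + 1) = r i * r (i + 1) * r i := by group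
        _ = r (i + 1) * r i * r (i + 1) := hb
        _ = _ := by group
    exact mul_left_cancel (mul_right_cancel this)
  calc r (i + 1) * Ag r i * (r (i + 1))⁻¹
      = (T r i * r (i + 1) * (T r i)⁻¹) * Ag r i * (T r i * r (i + 1) * (T r i)⁻¹)⁻¹ := by
        rw [← h3]
    _ = T r i * ((r (i + 1) * r i * (r (i + 1))⁻¹) * (r (i + 1) * r i * (r (i + 1))⁻¹)) *
          (T r i)⁻¹ := by
        rw [Ag]; group
    _ = T r i * (((r i)⁻¹ * r (i + 1) * r i) * ((r i)⁻¹ * r (i + 1) * r i)) * (T r i)⁻¹ := by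
        rw [hb2]
    _ = _ := by rw [Ag, Ag, T]; group

lemma Ag_mem {N d : ℕ} (hd : d < N) : Ag r d ∈ closure (gs (Ag r) N) :=
  subset_closure ⟨d, hd, rfl⟩

lemma Rel.conj_mem (h : Rel r (M + 1)) (i : ℕ) (hi : i < M) {u : G}
    (hu : u ∈ closure (gs (Ag r) (M + 1))) :
    r (i + 1) * u * (r (i + 1))⁻¹ ∈ closure (gs (Ag r) (M + 1)) := by
  induction hu using closure_induction with
  | mem u hu =>
    obtain ⟨d, hd, rfl⟩ := hu
    rcases Nat.lt_trichotomy d (i + 1) with hlt | heq | hgt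
    · rcases Nat.lt_or_ge d i with hlt' | hge
      · rw [h.conj_near i d (by omega) (by omega)]; exact Ag_mem hd
      · have : d = i := by omega
        subst this
        rw [h.conj_self d (by omega)]
        exact mul_mem (mul_mem (inv_mem (Ag_mem hd)) (Ag_mem (by omega))) (Ag_mem hd)
    · subst heq
      rw [h.conj_succ i (by omega)]; exact Ag_mem (by omega)
    · rw [h.conj_far i d (by omega) (by omega)]; exact Ag_mem hd
  | one => simp
  | mul u v hu hv ihu ihv =>
    have : r (i + 1) * (u * v) * (r (i + 1))⁻¹ =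
      (r (i + 1) * u * (r (i + 1))⁻¹) * (r (i + 1) * v * (r (i + 1))⁻¹) := by group
    rw [this]; exact mul_mem ihu ihv
  | inv u hu ihu =>
    have : r (i + 1) * u⁻¹ * (r (i + 1))⁻¹ = (r (i + 1) * u * (r (i + 1))⁻¹)⁻¹ := by group
    rw [this]; exact inv_mem ihu

lemma Rel.conj_inv_mem (h : Rel r (M + 1)) (i : ℕ) (hi : i < M) {u : G}
    (hu : u ∈ closure (gs (Ag r) (M + 1))) :
    (r (i + 1))⁻¹ * u * r (i + 1) ∈ closure (gs (Ag r) (M + 1)) := by
  induction hu using closure_induction with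
  | mem u hu =>
    obtain ⟨d, hd, rfl⟩ := hu
    have e1 := h.conj_succ i (by omega)
    have e2 : (r (i + 1))⁻¹ * Ag r i * r (i + 1) = Ag r (i + 1) := by rw [← e1]; group
    rcases Nat.lt_trichotomy d (i + 1) with hlt | heq | hgt
    · rcases Nat.lt_or_ge d i with hlt' | hge
      · have e3 := h.conj_near i d (by omega) (by omega)
        have : (r (i + 1))⁻¹ * Ag r d * r (i + 1) = Ag r d := by
          conv_lhs => rw [← e3]
          group
        rw [this]; exact Ag_mem hd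
      · have : d = i := by omega
        subst this
        rw [e2]
        exact Ag_mem (by omega)
    · subst heq
      have e3 := h.conj_self i (by omega)
      have e4 : (r (i + 1))⁻¹ * Ag r (i + 1) * r (i + 1) =
          Ag r (i + 1) * Ag r i * (Ag r (i + 1))⁻¹ := by
        have e5 : Ag r (i + 1) = Ag r i * (r (i + 1) * Ag r i * (r (i + 1))⁻¹) * (Ag r i)⁻¹ := by
          rw [e3]; group
        calc (r (i + 1))⁻¹ * Ag r (i + 1) * r (i + 1)
            = (r (i + 1))⁻¹ * (Ag r i * (r (i + 1) * Ag r i * (r (i + 1))⁻¹) * (Ag r i)⁻¹) *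
              r (i + 1) := by rw [← e5]
          _ = ((r (i + 1))⁻¹ * Ag r i * r (i + 1)) * Ag r i *
              ((r (i + 1))⁻¹ * Ag r i * r (i + 1))⁻¹ := by group
          _ = _ := by rw [e2]
      rw [e4]
      exact mul_mem (mul_mem (Ag_mem hd) (Ag_mem (by omega))) (inv_mem (Ag_mem hd))
    · have e3 := h.conj_far i d (by omega) (by omega)
      have : (r (i + 1))⁻¹ * Ag r d * r (i + 1) = Ag r d := by
        conv_lhs => rw [← e3]
        group
      rw [this]; exact Ag_mem hd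
  | one => simp
  | mul u v hu hv ihu ihv =>
    have : (r (i + 1))⁻¹ * (u * v) * r (i + 1) =
      ((r (i + 1))⁻¹ * u * r (i + 1)) * ((r (i + 1))⁻¹ * v * r (i + 1)) := by group
    rw [this]; exact mul_mem ihu ihv
  | inv u hu ihu =>
    have : (r (i + 1))⁻¹ * u⁻¹ * r (i + 1) = ((r (i + 1))⁻¹ * u * r (i + 1))⁻¹ := by group
    rw [this]; exact inv_mem ihu

lemma Rel.conj_mem' (h : Rel r (M + 1)) {b u : G} (hb : b ∈ closure (gs (sh r) M))
    (hu : u ∈ closure (gs (Ag r) (M + 1))) : b * u * b⁻¹ ∈ closure (gs (Ag r) (M + 1)) := by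
  induction hb using closure_induction_left with
  | one => simpa using hu
  | mul_left x hx y hy ih =>
    obtain ⟨i, hi, rfl⟩ := hx
    have : sh r i * y * u * (sh r i * y)⁻¹ = r (i + 1) * (y * u * y⁻¹) * (r (i + 1))⁻¹ := by
      rw [sh]; group
    rw [this]
    exact h.conj_mem i hi ih
  | inv_mul_cancel x hx y hy ih =>
    obtain ⟨i, hi, rfl⟩ := hx
    have : (sh r i)⁻¹ * y * u * ((sh r i)⁻¹ * y)⁻¹ = (r (i + 1))⁻¹ * (y * u * y⁻¹) * r (i + 1) := by
      rw [sh]; group
    rw [this]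
    exact h.conj_inv_mem i hi ih

/-- `T d * r j` in combed form -/
lemma Rel.T_mul (h : Rel r (M + 1)) (d j : ℕ) (hd : d ≤ M + 1) (hj : j < M + 1) :
    ∃ u ∈ closure (gs (Ag r) (M + 1)), ∃ b ∈ closure (gs (sh r) M), ∃ d' ≤ M + 1,
      T r d * r j = u * b * T r d' := by
  rcases Nat.lt_trichotomy d j with hlt | heq | hgt
  · refine ⟨1, one_mem _, r j, subset_closure ⟨j - 1, by omega, ?_⟩, d, hd, ?_⟩
    · rw [sh, Nat.sub_add_cancel (by omega)]
    · rw [one_mul, h.T_comm d j (by omega) hj]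
  · subst heq
    exact ⟨1, one_mem _, 1, one_mem _, d + 1, by omega, by simp [T]⟩
  · rcases Nat.lt_or_ge (j + 1) d with hlt' | hge
    · refine ⟨1, one_mem _, r (j + 1), subset_closure ⟨j, by omega, rfl⟩, d, hd, ?_⟩
      rw [one_mul, h.T_shift d j (by omega) hd]
    · have : d = j + 1 := by omega
      subst this
      refine ⟨Ag r j, Ag_mem hj, 1, one_mem _, j, by omega, ?_⟩
      rw [Ag, T]; group

/-- `T d * (r j)⁻¹` in combed form -/
lemma Rel.T_mul_inv (h : Rel r (M + 1)) (d j : ℕ) (hd : d ≤ M + 1) (hj : j < M + 1) :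
    ∃ u ∈ closure (gs (Ag r) (M + 1)), ∃ b ∈ closure (gs (sh r) M), ∃ d' ≤ M + 1,
      T r d * (r j)⁻¹ = u * b * T r d' := by
  rcases Nat.lt_trichotomy d j with hlt | heq | hgt
  · refine ⟨1, one_mem _, (r j)⁻¹, inv_mem (subset_closure ⟨j - 1, by omega, ?_⟩), d, hd, ?_⟩
    · rw [sh, Nat.sub_add_cancel (by omega)]
    · have := h.T_comm d j (by omega) hj
      rw [one_mul, eq_inv_mul_iff_mul_eq, ← mul_assoc, ← this, mul_inv_cancel_right]
  · subst heq
    refine ⟨(Ag r d)⁻¹, inv_mem (Ag_mem hj), 1, one_mem _, d + 1, by omega, ?_⟩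
    rw [Ag, T]; group
  · rcases Nat.lt_or_ge (j + 1) d with hlt' | hge
    · refine ⟨1, one_mem _, (r (j + 1))⁻¹, inv_mem (subset_closure ⟨j, by omega, rfl⟩), d, hd, ?_⟩
      have := h.T_shift d j (by omega) hd
      rw [one_mul, eq_inv_mul_iff_mul_eq, ← mul_assoc, ← this, mul_inv_cancel_right]
    · have : d = j + 1 := by omega
      subst this
      exact ⟨1, one_mem _, 1, one_mem _, j, by omega, by rw [T]; group⟩

/-- combing -/
theorem Rel.comb (h : Rel r (M + 1)) {g : G} (hg : g ∈ closure (gs r (M + 1))) :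
    ∃ u ∈ closure (gs (Ag r) (M + 1)), ∃ b ∈ closure (gs (sh r) M), ∃ d ≤ M + 1,
      g = u * b * T r d := by
  induction hg using closure_induction_right with
  | one => exact ⟨1, one_mem _, 1, one_mem _, 0, by omega, by simp [T]⟩
  | mul_right x hx y hy ih =>
    obtain ⟨u, hu, b, hb, d, hd, rfl⟩ := ih
    obtain ⟨j, hj, rfl⟩ := hy
    obtain ⟨u', hu', b', hb', d', hd', h'⟩ := h.T_mul d j hd hj
    refine ⟨u * (b * u' * b⁻¹), mul_mem hu (h.conj_mem' hb hu'), b * b', mul_mem hb hb', d', hd', ?_⟩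
    rw [mul_assoc (u * b), h']; group
  | mul_inv_cancel x hx y hy ih =>
    obtain ⟨u, hu, b, hb, d, hd, rfl⟩ := ih
    obtain ⟨j, hj, rfl⟩ := hy
    obtain ⟨u', hu', b', hb', d', hd', h'⟩ := h.T_mul_inv d j hd hj
    refine ⟨u * (b * u' * b⁻¹), mul_mem hu (h.conj_mem' hb hu'), b * b', mul_mem hb hb', d', hd', ?_⟩
    rw [mul_assoc (u * b), h']; group

end comb

end H31Braid
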