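import Pool.Agent.Lib_helper31.Braid.Comb

/-!
The Artin action on a free group, and its faithfulness (starting from the presentation).
-/

set_option autoImplicit false

namespace H31Braid

open Subgroup

section theta
variable {X : Type} [DecidableEq X]

/-- `x_a ↦ x_a⁻¹ x_b x_a`, `x_b ↦ x_a` -/
def thF (a b : X) : FreeGroup X →* FreeGroup X :=
  FreeGroup.lift fun c => if c = a then (FreeGroup.of a)⁻¹ * FreeGroup.of b * FreeGroup.of a
    else if c = b then FreeGroup.of a else FreeGroup.of c

/-- the inverse of `thF` -/
def thI (a b : X) : FreeGroup X →* FreeGroup X :=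
  FreeGroup.lift fun c => if c = a then FreeGroup.of b
    else if c = b then FreeGroup.of b * FreeGroup.of a * (FreeGroup.of b)⁻¹ else FreeGroup.of c

lemma thF_a (a b : X) : thF a b (FreeGroup.of a) =
    (FreeGroup.of a)⁻¹ * FreeGroup.of b * FreeGroup.of a := by simp [thF]

lemma thF_b {a b : X} (h : a ≠ b) : thF a b (FreeGroup.of b) = FreeGroup.of a := by
  simp [thF, h.symm]

lemma thF_c {a b c : X} (h : c ≠ a) (h' : c ≠ b) : thF a b (FreeGroup.of c) = FreeGroup.of c := by
  simp [thF, h, h']

lemma thI_a (a b : X) : thI a b (FreeGroup.of a) = FreeGroup.of b := by simp [thI]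

lemma thI_b {a b : X} (h : a ≠ b) : thI a b (FreeGroup.of b) =
    FreeGroup.of b * FreeGroup.of a * (FreeGroup.of b)⁻¹ := by
  simp [thI, h.symm]

lemma thI_c {a b c : X} (h : c ≠ a) (h' : c ≠ b) : thI a b (FreeGroup.of c) = FreeGroup.of c := by
  simp [thI, h, h']

/-- the automorphism -/
def th (a b : X) (h : a ≠ b) : MulAut (FreeGroup X) :=
  MonoidHom.toMulEquiv (thF a b) (thI a b)
    (by
      apply FreeGroup.ext_hom
      intro c
      rw [MonoidHom.comp_apply, MonoidHom.id_apply]
      by_cases h1 : c = a
      · subst h1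
        rw [thF_a, map_mul, map_mul, map_inv, thI_a, thI_b h]; group
      · by_cases h2 : c = b
        · subst h2
          rw [thF_b h, thI_a]
        · rw [thF_c h1 h2, thI_c h1 h2])
    (by
      apply FreeGroup.ext_hom
      intro c
      rw [MonoidHom.comp_apply, MonoidHom.id_apply]
      by_cases h1 : c = a
      · subst h1
        rw [thI_a, thF_b h]
      · by_cases h2 : c = b
        · subst h2
          rw [thI_b h, map_mul, map_mul, map_inv, thF_a, thF_b h]; group
        · rw [thI_c h1 h2, thF_c h1 h2])

lemma th_apply (a b : X) (h : a ≠ b) (v : FreeGroup X) : th a b h v = thF a b v := rfl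

lemma mulAut_ext {α β : MulAut (FreeGroup X)} (h : ∀ c, α (FreeGroup.of c) = β (FreeGroup.of c)) :
    α = β := by
  have : α.toMonoidHom = β.toMonoidHom := by
    apply FreeGroup.ext_hom
    exact h
  ext v
  exact congrArg (fun f => f v) this

lemma th_braid {a b c : X} (hab : a ≠ b) (hbc : b ≠ c) (hac : a ≠ c) :
    th a b hab * th b c hbc * th a b hab = th b c hbc * th a b hab * th b c hbc := by
  apply mulAut_ext
  intro x
  simp only [MulAut.mul_apply, th_apply]
  by_cases h1 : x = a
  · subst h1
    simp only [thF_a, thF_b hab, thF_b hbc, thF_c hab hac, thF_c hac.symm hbc.symm, map_mul, map_inv]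
    group
  · by_cases h2 : x = b
    · subst h2
      simp only [thF_a, thF_b hab, thF_b hbc, thF_c hab hac, thF_c hac.symm hbc.symm, map_mul,
        map_inv]
    · by_cases h3 : x = c
      · subst h3
        simp only [thF_a, thF_b hab, thF_b hbc, thF_c hab hac, thF_c hac.symm hbc.symm, map_mul,
          map_inv]
      · simp only [thF_c h1 h2, thF_c h2 h3]

lemma th_comm {a b c d : X} (hab : a ≠ b) (hcd : c ≠ d) (hac : a ≠ c) (had : a ≠ d) (hbc : b ≠ c)
    (hbd : b ≠ d) : th a b hab * th c d hcd = th c d hcd * th a b hab := by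
  apply mulAut_ext
  intro x
  simp only [MulAut.mul_apply, th_apply]
  by_cases h1 : x = a
  · subst h1
    simp only [thF_a, thF_c hac had, thF_c hbc hbd, map_mul, map_inv]
  · by_cases h2 : x = b
    · subst h2
      simp only [thF_b hab, thF_c hac had, thF_c hbc hbd]
    · by_cases h3 : x = c
      · subst h3
        simp only [thF_a, thF_c hac.symm hbc.symm, thF_c had.symm hbd.symm, map_mul, map_inv]
      · by_cases h4 : x = d
        · subst h4
          simp only [thF_b hcd, thF_c hac.symm hbc.symm, thF_c had.symm hbd.symm]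
        · simp only [thF_c h1 h2, thF_c h3 h4]

/-- homomorphisms to abelian groups do not see `thF²` -/
lemma comm_thF_sq {a b : X} (h : a ≠ b) {A : Type} [CommGroup A] (e : FreeGroup X →* A)
    (v : FreeGroup X) : e (thF a b (thF a b v)) = e v := by
  have : (e.comp (thF a b)).comp (thF a b) = e := by
    apply FreeGroup.ext_hom
    intro c
    simp only [MonoidHom.comp_apply]
    by_cases h1 : c = a
    · subst h1
      simp only [thF_a, thF_b h, map_mul, map_inv]
      simp
    · by_cases h2 : c = b
      · subst h2
        simp only [thF_a, thF_b h, map_mul, map_inv]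
        simp
      · simp only [thF_c h1 h2]
  exact congrArg (fun f => f v) this

/-- homomorphisms killing `x_a` do not see `thF²` -/
lemma kill_thF_sq {a b : X} (h : a ≠ b) {A : Type} [Group A] (q : FreeGroup X →* A)
    (hq : q (FreeGroup.of a) = 1) (v : FreeGroup X) : q (thF a b (thF a b v)) = q v := by
  have : (q.comp (thF a b)).comp (thF a b) = q := by
    apply FreeGroup.ext_hom
    intro c
    simp only [MonoidHom.comp_apply]
    by_cases h1 : c = a
    · subst h1
      simp only [thF_a, thF_b h, map_mul, map_inv, hq]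
      simp
    · by_cases h2 : c = b
      · subst h2
        simp only [thF_a, thF_b h, map_mul, map_inv, hq]
        simp
      · simp only [thF_c h1 h2]
  exact congrArg (fun f => f v) this

/-- kill the generator `z` -/
def kl (z : X) : FreeGroup X →* FreeGroup X :=
  FreeGroup.lift fun c => if c = z then 1 else FreeGroup.of c

lemma kl_z (z : X) : kl z (FreeGroup.of z) = 1 := by simp [kl]

lemma kl_c {z c : X} (h : c ≠ z) : kl z (FreeGroup.of c) = FreeGroup.of c := by simp [kl, h]

lemma kl_thF {z a b : X} (hab : a ≠ b) (ha : a ≠ z) (hb : b ≠ z) (v : FreeGroup X) :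
    kl z (thF a b v) = thF a b (kl z v) := by
  have : (kl z).comp (thF a b) = (thF a b).comp (kl z) := by
    apply FreeGroup.ext_hom
    intro c
    simp only [MonoidHom.comp_apply]
    by_cases h1 : c = a
    · subst h1
      simp only [thF_a, map_mul, map_inv, kl_c ha, kl_c hb]
    · by_cases h2 : c = b
      · subst h2
        simp only [thF_b hab, kl_c ha, kl_c hb]
      · rw [thF_c h1 h2]
        by_cases h3 : c = z
        · subst h3
          rw [kl_z, map_one]
        · rw [kl_c h3, thF_c h1 h2]
  exact congrArg (fun f => f v) this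

/-- the centralizer of `x_z` is killed by `kl z` -/
lemma kl_eq_one_of_comm {z : X} {w : FreeGroup X}
    (hw : w * FreeGroup.of z * w⁻¹ = FreeGroup.of z) : kl z w = 1 := by
  let zp : Equiv.Perm (ℤ × FreeGroup X) :=
    { toFun := fun x => (if x.2 = 1 then x.1 + 1 else x.1, x.2)
      invFun := fun x => (if x.2 = 1 then x.1 - 1 else x.1, x.2)
      left_inv := by
        rintro ⟨n, h⟩
        by_cases h1 : h = 1 <;> simp [h1]
      right_inv := by
        rintro ⟨n, h⟩
        by_cases h1 : h = 1 <;> simp [h1] }
  let mp : X → Equiv.Perm (ℤ × FreeGroup X) := fun c =>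
    { toFun := fun x => (x.1, FreeGroup.of c * x.2)
      invFun := fun x => (x.1, (FreeGroup.of c)⁻¹ * x.2)
      left_inv := by rintro ⟨n, h⟩; simp
      right_inv := by rintro ⟨n, h⟩; simp }
  let ρ : FreeGroup X →* Equiv.Perm (ℤ × FreeGroup X) :=
    FreeGroup.lift fun c => if c = z then zp else mp c
  have hρz : ρ (FreeGroup.of z) = zp := by simp [ρ]
  have hρc : ∀ c, c ≠ z → ρ (FreeGroup.of c) = mp c := by intro c hc; simp [ρ, hc]
  have hof : ∀ c, ∀ (n : ℤ) (h : FreeGroup X), ρ (FreeGroup.of c) (n, h) =
      ((ρ (FreeGroup.of c) (0, h)).1 + n, kl z (FreeGroup.of c) * h) := by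
    intro c n h
    by_cases h1 : c = z
    · subst h1
      rw [hρz, kl_z]
      by_cases h2 : h = 1
      · simp [zp, h2, add_comm]
      · simp [zp, h2]
    · rw [hρc c h1, kl_c h1]
      simp [mp]
  have key : ∀ v : FreeGroup X, ∀ (n : ℤ) (h : FreeGroup X),
      ρ v (n, h) = ((ρ v (0, h)).1 + n, kl z v * h) := by
    intro v
    induction v using FreeGroup.induction_on with
    | C1 => intro n h; simp
    | of c => exact hof c
    | inv_of c _ =>
      intro n h
      have h1 := hof c
      have h2 : ∀ n h, ρ (FreeGroup.of c)⁻¹ (n, h) =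
          (n - (ρ (FreeGroup.of c) (0, (kl z (FreeGroup.of c))⁻¹ * h)).1,
            (kl z (FreeGroup.of c))⁻¹ * h) := by
        intro n h
        rw [map_inv, Equiv.Perm.inv_eq_iff_eq, h1]
        simp
      rw [h2, h2, map_inv]
      simp only [Prod.mk.injEq, and_true]
      ring
    | mul u v hu hv =>
      intro n h
      rw [map_mul, Equiv.Perm.mul_apply, Equiv.Perm.mul_apply, hv n h, hu, hv 0 h,
        hu ((ρ v (0, h)).1 + 0), map_mul]
      simp only [Prod.mk.injEq]
      exact ⟨by ring, by rw [mul_assoc]⟩
  have hcomm : w * FreeGroup.of z = FreeGroup.of z * w := by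
    rw [mul_inv_eq_iff_eq_mul] at hw
    exact hw
  have h1 := congrArg (fun v => (ρ v (0, 1)).1) hcomm
  simp only [map_mul, Equiv.Perm.mul_apply, hρz] at h1
  have h2 : zp (0, 1) = (1, 1) := by simp [zp]
  rw [h2, key w 1 1] at h1
  by_contra hne
  have h3 : zp (ρ w (0, 1)) = ρ w (0, 1) := by
    rw [key w 0 1]
    simp [zp, hne]
  rw [h3] at h1
  simp at h1

end theta

/-- Faithfulness of the Artin action, in abstract form. -/
theorem faithful {X : Type} [DecidableEq X] {G : Type} [Group G] (Φ : G →* MulAut (FreeGroup X))
    (M : ℕ) : ∀ (r : ℕ → G) (a : ℕ → X), Rel r M → (∀ i ≤ M, ∀ j ≤ M, a i = a j → i = j) →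
      (∀ i < M, ∀ v, Φ (r i) v = thF (a i) (a (i + 1)) v) →
      ∀ g ∈ closure (gs r M), Φ g = 1 → g = 1 := by
  induction M with
  | zero =>
    intro r a _ _ _ g hg _
    have h1 : gs r 0 = ∅ := by
      ext x; simp [gs]
    rw [h1, Subgroup.closure_empty, mem_bot] at hg
    exact hg
  | succ M ih =>
    intro r a hr ha hΦ g hg hg1
    set z := a 0 with hz
    have hza : ∀ i, i ≤ M → a (i + 1) ≠ z := by
      intro i hi h0
      have := ha (i + 1) (by omega) 0 (by omega) h0
      omega
    have hne : ∀ i, i < M + 1 → a i ≠ a (i + 1) := by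
      intro i hi h0
      have := ha i (by omega) (i + 1) (by omega) h0
      omega
    have hΦinv : ∀ (x : G) (v : FreeGroup X), Φ x (Φ x⁻¹ v) = v := by
      intro x v
      rw [← MulAut.mul_apply, ← map_mul]; simp
    have hΦinv' : ∀ (x : G) (v : FreeGroup X), Φ x⁻¹ (Φ x v) = v := by
      intro x v
      rw [← MulAut.mul_apply, ← map_mul]; simp
    -- `Φ (T d)` sends `x_{a d}` to `x_z`
    have hT : ∀ d, d ≤ M + 1 → Φ (T r d) (FreeGroup.of (a d)) = FreeGroup.of z := by
      intro d
      induction d with
      | zero => intro _; simp [T, hz]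
      | succ d ihd =>
        intro hd
        rw [T, map_mul, MulAut.mul_apply, hΦ d (by omega), thF_b (hne d (by omega)),
          ihd (by omega)]
    have hT' : ∀ d j, d < j → j ≤ M + 1 → Φ (T r d) (FreeGroup.of (a j)) = FreeGroup.of (a j) := by
      intro d
      induction d with
      | zero => intro j _ _; simp [T]
      | succ d ihd =>
        intro j hj hj'
        have h1 : a j ≠ a d := by
          intro h0
          have := ha j hj' d (by omega) h0
          omega
        have h2 : a j ≠ a (d + 1) := by
          intro h0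
          have := ha j hj' (d + 1) (by omega) h0
          omega
        rw [T, map_mul, MulAut.mul_apply, hΦ d (by omega), thF_c h1 h2, ihd j (by omega) hj']
    -- action of the pure generators
    have hA : ∀ d, d < M + 1 → ∀ v, Φ (Ag r d) v =
        Φ (T r d) (thF (a d) (a (d + 1)) (thF (a d) (a (d + 1)) (Φ (T r d)⁻¹ v))) := by
      intro d hd v
      rw [Ag, map_mul, map_mul, map_mul, MulAut.mul_apply, MulAut.mul_apply, MulAut.mul_apply,
        hΦ d hd, hΦ d hd]
    -- exponent sum of `x_z`
    let e : FreeGroup X →* Multiplicative ℤ :=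
      FreeGroup.lift fun c => if c = z then Multiplicative.ofAdd 1 else 1
    have hez : e (FreeGroup.of z) = Multiplicative.ofAdd 1 := by simp [e]
    have hec : ∀ c, c ≠ z → e (FreeGroup.of c) = 1 := by intro c hc; simp [e, hc]
    have heB : ∀ b ∈ closure (gs (sh r) M), ∀ v, e (Φ b v) = e v := by
      intro b hb
      induction hb using closure_induction with
      | mem x hx =>
        obtain ⟨i, hi, rfl⟩ := hx
        intro v
        rw [sh, hΦ (i + 1) (by omega)]
        have : e.comp (thF (a (i + 1)) (a (i + 1 + 1))) = e := by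
          apply FreeGroup.ext_hom
          intro c
          rw [MonoidHom.comp_apply]
          by_cases h1 : c = a (i + 1)
          · subst h1
            rw [thF_a, map_mul, map_mul, map_inv, hec _ (hza i (by omega)),
              hec _ (hza (i + 1) (by omega))]
            simp
          · by_cases h2 : c = a (i + 1 + 1)
            · subst h2
              rw [thF_b (hne (i + 1) (by omega)), hec _ (hza i (by omega)),
                hec _ (hza (i + 1) (by omega))]
            · rw [thF_c h1 h2]
        exact congrArg (fun f => f v) this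
      | one => intro v; simp
      | mul x y _ _ ihx ihy => intro v; rw [map_mul, MulAut.mul_apply, ihx, ihy]
      | inv x _ ihx =>
        intro v
        rw [← ihx (Φ x⁻¹ v), hΦinv]
    have heU : ∀ u ∈ closure (gs (Ag r) (M + 1)), ∀ v, e (Φ u v) = e v := by
      intro u hu
      induction hu using closure_induction with
      | mem x hx =>
        obtain ⟨d, hd, rfl⟩ := hx
        intro v
        rw [hA d hd]
        have := comm_thF_sq (hne d hd) (e.comp (Φ (T r d)).toMonoidHom) (Φ (T r d)⁻¹ v)
        simp only [MonoidHom.comp_apply, MulEquiv.coe_toMonoidHom] at this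
        rw [this, hΦinv]
      | one => intro v; simp
      | mul x y _ _ ihx ihy => intro v; rw [map_mul, MulAut.mul_apply, ihx, ihy]
      | inv x _ ihx =>
        intro v
        rw [← ihx (Φ x⁻¹ v), hΦinv]
    -- killing `x_z`
    have hqB : ∀ b ∈ closure (gs (sh r) M), ∀ v, kl z (Φ b v) = Φ b (kl z v) := by
      intro b hb
      induction hb using closure_induction with
      | mem x hx =>
        obtain ⟨i, hi, rfl⟩ := hx
        intro v
        rw [sh, hΦ (i + 1) (by omega), hΦ (i + 1) (by omega),
          kl_thF (hne (i + 1) (by omega)) (hza i (by omega)) (hza (i + 1) (by omega))]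
      | one => intro v; simp
      | mul x y _ _ ihx ihy =>
        intro v
        rw [map_mul, MulAut.mul_apply, MulAut.mul_apply, ihx, ihy]
      | inv x _ ihx =>
        intro v
        have := ihx (Φ x⁻¹ v)
        rw [hΦinv] at this
        rw [this, hΦinv']
    have hfB : ∀ b ∈ closure (gs (sh r) M), Φ b (FreeGroup.of z) = FreeGroup.of z := by
      intro b hb
      induction hb using closure_induction with
      | mem x hx =>
        obtain ⟨i, hi, rfl⟩ := hx
        rw [sh, hΦ (i + 1) (by omega), thF_c (hza i (by omega)).symm (hza (i + 1) (by omega)).symm]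
      | one => simp
      | mul x y _ _ ihx ihy => rw [map_mul, MulAut.mul_apply, ihy, ihx]
      | inv x _ ihx =>
        conv_lhs => rw [← ihx]
        rw [hΦinv']
    have hqU : ∀ u ∈ closure (gs (Ag r) (M + 1)), ∀ v, kl z (Φ u v) = kl z v := by
      intro u hu
      induction hu using closure_induction with
      | mem x hx =>
        obtain ⟨d, hd, rfl⟩ := hx
        intro v
        rw [hA d hd]
        have h1 : ((kl z).comp (Φ (T r d)).toMonoidHom) (FreeGroup.of (a d)) = 1 := by
          rw [MonoidHom.comp_apply, MulEquiv.coe_toMonoidHom, hT d (by omega), kl_z]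
        have := kill_thF_sq (hne d hd) ((kl z).comp (Φ (T r d)).toMonoidHom) h1 (Φ (T r d)⁻¹ v)
        simp only [MonoidHom.comp_apply, MulEquiv.coe_toMonoidHom] at this
        rw [this, hΦinv]
      | one => intro v; simp
      | mul x y _ _ ihx ihy => intro v; rw [map_mul, MulAut.mul_apply, ihx, ihy]
      | inv x _ ihx =>
        intro v
        rw [← ihx (Φ x⁻¹ v), hΦinv]
    -- the comb form of `g`
    obtain ⟨u, hu, b, hb, d, hd, rfl⟩ := hr.comb hg
    have hd0 : d = 0 := by
      have h1 : Φ (u * b * T r d) (FreeGroup.of (a d)) = FreeGroup.of (a d) := by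
        rw [hg1]; rfl
      rw [map_mul, map_mul, MulAut.mul_apply, MulAut.mul_apply, hT d hd] at h1
      have h2 := congrArg e h1
      rw [heU u hu, heB b hb, hez] at h2
      by_contra hd0
      have h3 : a d ≠ z := by
        intro h0
        exact hd0 (ha d hd 0 (by omega) h0)
      rw [hec _ h3] at h2
      exact absurd (Multiplicative.ofAdd.injective (h2.trans ofAdd_zero.symm)) one_ne_zero
    subst hd0
    have hub : u * b * T r 0 = u * b := by simp [T]
    rw [hub] at hg1 hg ⊢
    have hb1 : Φ b = 1 := by
      apply mulAut_ext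
      intro c
      rw [MulAut.one_apply]
      by_cases hc : c = z
      · subst hc
        exact hfB b hb
      · have h1 : Φ (u * b) (FreeGroup.of c) = FreeGroup.of c := by rw [hg1]; rfl
        rw [map_mul, MulAut.mul_apply] at h1
        have h2 := congrArg (kl z) h1
        rw [hqU u hu, hqB b hb, kl_c hc] at h2
        exact h2
    have hb' : b = 1 := by
      apply ih (sh r) (fun i => a (i + 1)) hr.shift ?_ ?_ b hb hb1
      · intro i hi j hj hij
        have := ha (i + 1) (by omega) (j + 1) (by omega) hij
        omega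
      · intro i hi v
        exact hΦ (i + 1) (by omega) v
    subst hb'
    rw [mul_one] at hg1 ⊢
    -- now `u` is pure
    let Ev : FreeGroup (Fin (M + 1)) →* G := FreeGroup.lift fun i => Ag r i.1
    let V : Fin (M + 1) → X := fun i => a (i.1 + 1)
    have hV : Function.Injective V := by
      intro i j hij
      have := ha (i.1 + 1) (by omega) (j.1 + 1) (by omega) hij
      exact Fin.ext (by omega)
    have hEvU : ∀ t, Ev t ∈ closure (gs (Ag r) (M + 1)) := by
      intro t
      induction t using FreeGroup.induction_on with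
      | C1 => simp
      | of i => simp only [Ev, FreeGroup.lift_apply_of]; exact Ag_mem i.2
      | inv_of i h => rw [map_inv]; exact inv_mem h
      | mul s t hs ht => rw [map_mul]; exact mul_mem hs ht
    have hR : ∀ t, ∃ w, Φ (Ev t) (FreeGroup.of z) = w * FreeGroup.of z * w⁻¹ ∧
        kl z w = (FreeGroup.map V t)⁻¹ := by
      intro t
      induction t using FreeGroup.induction_on with
      | C1 => exact ⟨1, by simp⟩
      | of i =>
        refine ⟨(FreeGroup.of z)⁻¹ * (FreeGroup.of (a (i.1 + 1)))⁻¹ * FreeGroup.of z, ?_, ?_⟩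
        · have h1 : Ev (FreeGroup.of i) = Ag r i.1 := by simp [Ev]
          have h2 : Φ (T r i.1)⁻¹ (FreeGroup.of z) = FreeGroup.of (a i.1) := by
            rw [← hT i.1 (by omega), hΦinv']
          rw [h1, hA i.1 i.2, h2]
          simp only [thF_a, thF_b (hne i.1 i.2), map_mul, map_inv (thF _ _), map_inv (Φ (T r i.1)),
            hT i.1 (by omega), hT' i.1 (i.1 + 1) (by omega) (by omega)]
          group
        · rw [map_mul, map_mul, map_inv, map_inv, kl_z, kl_c (hza i.1 (by omega))]
          simp [V]
      | inv_of i h =>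
        obtain ⟨w, hw1, hw2⟩ := h
        refine ⟨(Φ (Ev (FreeGroup.of i))⁻¹ w)⁻¹, ?_, ?_⟩
        · have h1 := congrArg (Φ (Ev (FreeGroup.of i))⁻¹) hw1
          rw [hΦinv'] at h1
          rw [map_inv Ev]
          generalize Φ (Ev (FreeGroup.of i))⁻¹ = P at h1 ⊢
          rw [map_mul, map_mul, map_inv] at h1
          rw [inv_inv]
          conv_rhs => rw [h1]
          group
        · rw [map_inv, hqU _ (inv_mem (hEvU _)), hw2, map_inv]
      | mul s t hs ht =>
        obtain ⟨w, hw1, hw2⟩ := hs
        obtain ⟨w', hw1', hw2'⟩ := ht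
        refine ⟨Φ (Ev s) w' * w, ?_, ?_⟩
        · rw [map_mul Ev, map_mul Φ, MulAut.mul_apply, hw1', map_mul, map_mul, map_inv, hw1]
          group
        · rw [map_mul, hqU _ (hEvU _), hw2, hw2', map_mul, mul_inv_rev]
    have hsurj : ∃ t, Ev t = u := by
      have : closure (gs (Ag r) (M + 1)) ≤ Ev.range := by
        rw [closure_le]
        rintro _ ⟨i, hi, rfl⟩
        exact ⟨FreeGroup.of ⟨i, hi⟩, by simp [Ev]⟩
      exact this hu
    obtain ⟨t, rfl⟩ := hsurj
    obtain ⟨w, hw1, hw2⟩ := hR t
    rw [hg1] at hw1
    have h3 := kl_eq_one_of_comm hw1.symm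
    rw [hw2, inv_eq_one] at h3
    have h4 : t = 1 := FreeGroup.map_injective hV (by rw [h3, map_one])
    rw [h4, map_one]

end H31Braid
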