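import Pool.Agent.Lib_helper31.Braid.Faith
import Pool.Agent.Lib_helper31.Braid.Aut

/-!
The braid group given by the Artin presentation is virtually RFRS.
-/

set_option autoImplicit false

namespace H31Braid

open Subgroup

/-- the Artin relators on `m` generators (`m + 1` strands) -/
def rels (m : ℕ) : Set (FreeGroup (Fin m)) :=
  {r | ∃ i j : Fin m,
            (i.val + 1 = j.val ∧
              r = FreeGroup.of i * FreeGroup.of j * FreeGroup.of i *
                (FreeGroup.of j * FreeGroup.of i * FreeGroup.of j)⁻¹) ∨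
            (i.val + 2 ≤ j.val ∧
              r = FreeGroup.of i * FreeGroup.of j *
                (FreeGroup.of j * FreeGroup.of i)⁻¹)}

lemma cs_ne {m : ℕ} (i : Fin m) : i.castSucc ≠ i.succ := by
  intro h
  have := congrArg Fin.val h
  simp at this

/-- a general construction of homomorphisms from the braid group -/
lemma lift_rels {m : ℕ} {G : Type} [Group G] (f : Fin m → G)
    (h1 : ∀ i j : Fin m, i.val + 1 = j.val → f i * f j * f i = f j * f i * f j)
    (h2 : ∀ i j : Fin m, i.val + 2 ≤ j.val → f i * f j = f j * f i) :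
    ∀ r ∈ rels m, FreeGroup.lift f r = 1 := by
  rintro r ⟨i, j, ⟨hij, rfl⟩ | ⟨hij, rfl⟩⟩
  · rw [map_mul, map_inv, mul_inv_eq_one]
    simpa using h1 i j hij
  · rw [map_mul, map_inv, mul_inv_eq_one]
    simpa using h2 i j hij

/-- images of the generators under the Artin action -/
def thm (m : ℕ) (i : Fin m) : MulAut (FreeGroup (Fin (m + 1))) := th i.castSucc i.succ (cs_ne i)

lemma th_rel1 {m : ℕ} (i j : Fin m) (hij : i.val + 1 = j.val) :
    thm m i * thm m j * thm m i = thm m j * thm m i * thm m j := by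
  have h : j.castSucc = i.succ := by
    apply Fin.ext; simp [hij]
  have h3 : i.castSucc ≠ j.succ := by
    intro h0
    have := congrArg Fin.val h0
    simp at this
    omega
  have h4 : i.succ ≠ j.succ := by rw [← h]; exact cs_ne j
  have : thm m j = th i.succ j.succ h4 := by
    unfold thm
    congr 1
  rw [this]
  exact th_braid (cs_ne i) h4 h3

lemma th_rel2 {m : ℕ} (i j : Fin m) (hij : i.val + 2 ≤ j.val) :
    thm m i * thm m j = thm m j * thm m i := by
  unfold thm
  apply th_comm
  all_goals
    intro h0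
    have := congrArg Fin.val h0
    simp at this
    omega

/-- The Artin action. -/
def Art (m : ℕ) : PresentedGroup (rels m) →* MulAut (FreeGroup (Fin (m + 1))) :=
  PresentedGroup.toGroup (f := thm m) (lift_rels (thm m) th_rel1 th_rel2)

lemma Art_of {m : ℕ} (i : Fin m) :
    Art m (PresentedGroup.of i) = th i.castSucc i.succ (cs_ne i) :=
  PresentedGroup.toGroup.of (lift_rels (thm m) th_rel1 th_rel2)

/-- The permutation of the strands. -/
def Prm (m : ℕ) : PresentedGroup (rels m) →* Equiv.Perm (Fin (m + 1)) :=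
  PresentedGroup.toGroup (f := fun i => Equiv.swap i.castSucc i.succ)
    (lift_rels _
      (by
        intro i j hij
        have h : j.castSucc = i.succ := by
          apply Fin.ext; simp [hij]
        have h3 : i.castSucc ≠ j.succ := by
          intro h0
          have := congrArg Fin.val h0
          simp at this
          omega
        have h4 : i.succ ≠ j.succ := by rw [← h]; exact cs_ne j
        rw [h]
        have e1 := Equiv.swap_mul_swap_mul_swap (x := i.castSucc) (y := i.succ) (z := j.succ)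
          (cs_ne i) h3
        have e2 := Equiv.swap_mul_swap_mul_swap (x := j.succ) (y := i.succ) (z := i.castSucc)
          h4.symm h3.symm
        rw [Equiv.swap_comm i.succ i.castSucc, Equiv.swap_comm j.succ i.succ] at e2
        rw [e2, Equiv.swap_comm i.castSucc j.succ, ← e1])
      (by
        intro i j hij
        apply (Equiv.Perm.disjoint_swap_swap _).commute
        simp only [List.nodup_cons, List.mem_cons, List.not_mem_nil, not_or, Fin.ext_iff,
          Fin.val_succ, Fin.val_castSucc, List.nodup_nil, or_false, not_false_eq_true, and_true]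
        omega))

lemma Prm_of {m : ℕ} (i : Fin m) :
    Prm m (PresentedGroup.of i) = Equiv.swap i.castSucc i.succ := PresentedGroup.toGroup.of _

/-- The Artin action permutes the conjugacy classes of the generators. -/
lemma Art_conj {m : ℕ} (g : PresentedGroup (rels m)) : ∀ c, ∃ u,
    Art m g (FreeGroup.of c) = u * FreeGroup.of (Prm m g c) * u⁻¹ := by
  have hg : g ∈ closure (Set.range (PresentedGroup.of (rels := rels m))) := by
    rw [PresentedGroup.closure_range_of]; exact mem_top _
  induction hg using closure_induction with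
  | mem g hg =>
    obtain ⟨i, rfl⟩ := hg
    intro c
    rw [Art_of, Prm_of, th_apply]
    by_cases h1 : c = i.castSucc
    · subst h1
      refine ⟨(FreeGroup.of i.castSucc)⁻¹, ?_⟩
      rw [thF_a, Equiv.swap_apply_left, inv_inv]
    · by_cases h2 : c = i.succ
      · subst h2
        refine ⟨1, ?_⟩
        rw [thF_b (cs_ne i), Equiv.swap_apply_right]; simp
      · refine ⟨1, ?_⟩
        rw [thF_c h1 h2, Equiv.swap_apply_of_ne_of_ne h1 h2]; simp
  | one => intro c; exact ⟨1, by simp⟩
  | mul g h _ _ ihg ihh =>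
    intro c
    obtain ⟨u, hu⟩ := ihh c
    obtain ⟨v, hv⟩ := ihg (Prm m h c)
    refine ⟨Art m g u * v, ?_⟩
    rw [map_mul, map_mul, MulAut.mul_apply, hu, map_mul, map_mul, map_inv, hv,
      Equiv.Perm.mul_apply]
    group
  | inv g _ ihg =>
    intro c
    obtain ⟨u, hu⟩ := ihg ((Prm m g)⁻¹ c)
    rw [perm_apply_inv] at hu
    rw [map_inv (Prm m), map_inv (Art m)]
    refine ⟨((Art m g)⁻¹ u)⁻¹, ?_⟩
    apply (Art m g).injective
    simp only [MulAut.apply_inv_self, map_mul, map_inv, hu]
    group

/-- the sequence of generators -/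
def rr (m : ℕ) : ℕ → PresentedGroup (rels m) := fun i =>
  if h : i < m then PresentedGroup.of ⟨i, h⟩ else 1

lemma rr_lt {m i : ℕ} (h : i < m) : rr m i = PresentedGroup.of ⟨i, h⟩ := by simp [rr, h]

lemma Rel_rr (m : ℕ) : Rel (rr m) m := by
  constructor
  · intro i hi
    rw [rr_lt hi, rr_lt (show i < m by omega)]
    have : (FreeGroup.of (⟨i, by omega⟩ : Fin m) * FreeGroup.of ⟨i + 1, hi⟩ *
        FreeGroup.of ⟨i, by omega⟩ * (FreeGroup.of (⟨i + 1, hi⟩ : Fin m) *
          FreeGroup.of ⟨i, by omega⟩ * FreeGroup.of ⟨i + 1, hi⟩)⁻¹) ∈ rels m :=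
      ⟨⟨i, by omega⟩, ⟨i + 1, hi⟩, Or.inl ⟨rfl, rfl⟩⟩
    exact PresentedGroup.mk_eq_mk_of_mul_inv_mem this
  · intro i j hij hj
    rw [rr_lt hj, rr_lt (show i < m by omega)]
    have : (FreeGroup.of (⟨i, by omega⟩ : Fin m) * FreeGroup.of ⟨j, hj⟩ *
        (FreeGroup.of (⟨j, hj⟩ : Fin m) * FreeGroup.of ⟨i, by omega⟩)⁻¹) ∈ rels m :=
      ⟨⟨i, by omega⟩, ⟨j, hj⟩, Or.inr ⟨hij, rfl⟩⟩
    exact PresentedGroup.mk_eq_mk_of_mul_inv_mem this

lemma mem_closure_gs (m : ℕ) (g : PresentedGroup (rels m)) : g ∈ closure (gs (rr m) m) := by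
  have hg : g ∈ closure (Set.range (PresentedGroup.of (rels := rels m))) := by
    rw [PresentedGroup.closure_range_of]; exact mem_top _
  apply closure_mono _ hg
  rintro _ ⟨i, rfl⟩
  exact ⟨i.1, i.2, by rw [rr_lt i.2]⟩

/-- the Artin action is faithful -/
theorem Art_injective (m : ℕ) (g : PresentedGroup (rels m)) (hg : Art m g = 1) : g = 1 := by
  have hv : ∀ i, i ≤ m → (Fin.ofNat (m + 1) i).val = i := by
    intro i hi
    simp only [Fin.ofNat]
    exact Nat.mod_eq_of_lt (by omega)
  apply faithful (Art m) m (rr m) (fun i => Fin.ofNat (m + 1) i) (Rel_rr m) ?_ ?_ g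
    (mem_closure_gs m g) hg
  · intro i hi j hj hij
    have := congrArg Fin.val hij
    simp only [hv i hi, hv j hj] at this
    exact this
  · intro i hi v
    rw [rr_lt hi, Art_of, th_apply]
    have h1 : (⟨i, hi⟩ : Fin m).castSucc = Fin.ofNat (m + 1) i := by
      apply Fin.ext; rw [hv i (by omega)]; rfl
    have h2 : (⟨i, hi⟩ : Fin m).succ = Fin.ofNat (m + 1) (i + 1) := by
      apply Fin.ext; rw [hv (i + 1) (by omega)]; rfl
    rw [h1, h2]

/-- **Braid groups are virtually RFRS**: the pure braid group is RFRS. -/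
theorem virtually_rfrs (m : ℕ) : ∃ H : Subgroup (PresentedGroup (rels m)),
      H.FiniteIndex ∧
      ∃ Gs : ℕ → Subgroup H,
        Gs 0 = ⊤ ∧
        (∀ i, (Gs i).Normal) ∧
        (∀ i, (Gs i).FiniteIndex) ∧
        (∀ i, Gs (i + 1) ≤ Gs i) ∧
        (⨅ i, Gs i) = ⊥ ∧
        (∀ i, ∀ g ∈ Gs i, (∃ k : ℕ, 0 < k ∧ g ^ k ∈ ⁅Gs i, Gs i⁆) → g ∈ Gs (i + 1)) := by
  refine ⟨(Prm m).ker, inferInstance, ?_⟩
  have hcount : Countable (PresentedGroup (rels m)) :=
    (PresentedGroup.mk_surjective (rels m)).countable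
  apply exists_chain_of_detect
  intro g hg
  rcases m with _ | m
  · exfalso
    apply hg
    have h1 := mem_closure_gs 0 g.1
    have h2 : gs (rr 0) 0 = ∅ := by ext x; simp [gs]
    rw [h2, Subgroup.closure_empty, mem_bot] at h1
    exact Subtype.ext h1
  · apply detect_of_action (Art (m + 1)) (Prm (m + 1)).ker ?_ g ?_
    · intro h hh x
      obtain ⟨u, hu⟩ := Art_conj h x
      rw [MonoidHom.mem_ker] at hh
      rw [hh] at hu
      exact ⟨u, hu⟩
    · intro h0
      exact hg (Subtype.ext (Art_injective (m + 1) g.1 h0))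

end H31Braid
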