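import Pool.Agent.Lib_helper31.Braid.Tower

/-!
The index-two cover attached to a basis element, and the main induction.
-/

set_option autoImplicit false

namespace H31Braid

open Subgroup

section cover
variable {E : Type} [Group E] {X : Type} (b : X → E) (p : X)

/-- index type of the basis of the index two subgroup -/
abbrev NX (X : Type) (p : X) : Type := Option ({j : X // j ≠ p} × Bool)

/-- basis of the index two subgroup -/
def nb : NX X p → E
  | none => b p * b p
  | some (j, false) => b j.1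
  | some (j, true) => (b p)⁻¹ * b j.1 * b p

/-- coset representatives -/
def rep : Bool → E
  | false => 1
  | true => b p

lemma nb_mem (y : NX X p) : nb b p y ∈ closure (Set.range b) := by
  have h : ∀ x, b x ∈ closure (Set.range b) := fun x => subset_closure ⟨x, rfl⟩
  rcases y with _ | ⟨j, _ | _⟩
  · exact mul_mem (h p) (h p)
  · exact h _
  · exact mul_mem (mul_mem (inv_mem (h p)) (h _)) (h p)

lemma closure_nb_le : closure (Set.range (nb b p)) ≤ closure (Set.range b) := by
  rw [closure_le]
  rintro _ ⟨y, rfl⟩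
  exact nb_mem b p y

/-- rewriting a single letter -/
lemma rw_letter (i : X) (ε e : Bool) : ∃ (L : List (NX X p × Bool)) (e' : Bool), L.length ≤ 1 ∧
    (cond ε (b i) (b i)⁻¹) * rep b p e = rep b p e' * ev (nb b p) L := by
  classical
  by_cases hi : i = p
  · subst hi
    rcases ε with _ | _ <;> rcases e with _ | _
    · refine ⟨[(none, false)], true, by simp, ?_⟩
      simp [ev, nb, rep]
    · refine ⟨[], false, by simp, ?_⟩
      simp [ev, rep]
    · refine ⟨[], true, by simp, ?_⟩
      simp [ev, rep]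
    · refine ⟨[(none, true)], false, by simp, ?_⟩
      simp [ev, nb, rep]
  · rcases e with _ | _
    · refine ⟨[(some (⟨i, hi⟩, false), ε)], false, by simp, ?_⟩
      simp [ev, nb, rep]
    · refine ⟨[(some (⟨i, hi⟩, true), ε)], true, by simp, ?_⟩
      rcases ε with _ | _ <;> simp [ev, nb, rep, mul_assoc]

/-- rewriting a word -/
lemma rw_word (L : List (X × Bool)) (e : Bool) : ∃ (L' : List (NX X p × Bool)) (e' : Bool),
    L'.length ≤ L.length ∧ ev b L * rep b p e = rep b p e' * ev (nb b p) L' := by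
  induction L with
  | nil => exact ⟨[], e, le_rfl, by simp [ev]⟩
  | cons x L ih =>
    obtain ⟨L₁, e₁, h₁, h₁'⟩ := ih
    obtain ⟨L₂, e₂, h₂, h₂'⟩ := rw_letter b p x.1 x.2 e₁
    refine ⟨L₂ ++ L₁, e₂, ?_, ?_⟩
    · rw [List.length_append, List.length_cons]; omega
    · rw [ev_cons, ev_append, mul_assoc, h₁', ← mul_assoc, h₂', mul_assoc]

/-- the index two subgroup is freely generated by the new family -/
lemma FB_nb (hb : FB b) : FB (nb b p) := by
  classical
  intro A _ c
  -- the induced representation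
  let s : Equiv.Perm (Bool × A) :=
    { toFun := fun x => (!x.1, if x.1 then c none * x.2 else x.2)
      invFun := fun x => (!x.1, if x.1 then x.2 else (c none)⁻¹ * x.2)
      left_inv := by rintro ⟨_ | _, a⟩ <;> simp
      right_inv := by rintro ⟨_ | _, a⟩ <;> simp }
  let d : {j : X // j ≠ p} → Equiv.Perm (Bool × A) := fun j =>
    { toFun := fun x => (x.1, c (some (j, x.1)) * x.2)
      invFun := fun x => (x.1, (c (some (j, x.1)))⁻¹ * x.2)
      left_inv := by rintro ⟨_ | _, a⟩ <;> simp
      right_inv := by rintro ⟨_ | _, a⟩ <;> simp }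
  obtain ⟨ψ, h1, h2⟩ := hb (Equiv.Perm (Bool × A)) (fun x => if h : x = p then s else d ⟨x, h⟩)
  have hp : ψ (b p) = s := by rw [h2]; simp
  have hj : ∀ j : {j : X // j ≠ p}, ψ (b j.1) = d j := by
    intro j; rw [h2]; simp [j.2]
  have hbm : ∀ x, b x ∈ closure (Set.range b) := fun x => subset_closure ⟨x, rfl⟩
  have hle := closure_nb_le b p
  have key : ∀ r ∈ closure (Set.range (nb b p)), ∃ x : A, ∀ a : A, ψ r (false, a) = (false, x * a) := by
    intro r hr
    induction hr using closure_induction with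
    | mem r hr =>
      obtain ⟨y, rfl⟩ := hr
      rcases y with _ | ⟨j, _ | _⟩
      · refine ⟨c none, fun a => ?_⟩
        change ψ (b p * b p) (false, a) = _
        rw [h1 _ (hbm p) _ (hbm p), hp]
        simp [s]
      · refine ⟨c (some (j, false)), fun a => ?_⟩
        change ψ (b j.1) (false, a) = _
        rw [hj]
        simp [d]
      · refine ⟨c (some (j, true)), fun a => ?_⟩
        change ψ ((b p)⁻¹ * b j.1 * b p) (false, a) = _
        rw [h1 _ (mul_mem (inv_mem (hbm p)) (hbm _)) _ (hbm p), h1 _ (inv_mem (hbm p)) _ (hbm _),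
          h1.inv (hbm p), hp, hj]
        rw [Equiv.Perm.mul_apply, Equiv.Perm.mul_apply, Equiv.Perm.inv_eq_iff_eq]
        simp [s, d]
    | one => exact ⟨1, fun a => by rw [h1.one]; simp⟩
    | mul u v hu hv ihu ihv =>
      obtain ⟨x, hx⟩ := ihu
      obtain ⟨y, hy⟩ := ihv
      refine ⟨x * y, fun a => ?_⟩
      rw [h1 _ (hle hu) _ (hle hv), Equiv.Perm.mul_apply, hy, hx, mul_assoc]
    | inv u hu ihu =>
      obtain ⟨x, hx⟩ := ihu
      refine ⟨x⁻¹, fun a => ?_⟩
      rw [h1.inv (hle hu), Equiv.Perm.inv_eq_iff_eq, hx]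
      simp
  refine ⟨fun r => (ψ r (false, 1)).2, ?_, ?_⟩
  · intro u hu v hv
    change (ψ (u * v) (false, 1)).2 = (ψ u (false, 1)).2 * (ψ v (false, 1)).2
    rw [h1 _ (hle hu) _ (hle hv), Equiv.Perm.mul_apply]
    obtain ⟨x, hx⟩ := key u hu
    obtain ⟨y, hy⟩ := key v hv
    rw [hy, hx, hx]
    simp
  · intro y
    rcases y with _ | ⟨j, _ | _⟩
    · change (ψ (b p * b p) (false, 1)).2 = _
      rw [h1 _ (hbm p) _ (hbm p), hp]
      simp [s]
    · change (ψ (b j.1) (false, 1)).2 = _
      rw [hj]
      simp [d]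
    · change (ψ ((b p)⁻¹ * b j.1 * b p) (false, 1)).2 = _
      rw [h1 _ (mul_mem (inv_mem (hbm p)) (hbm _)) _ (hbm p), h1 _ (inv_mem (hbm p)) _ (hbm _),
        h1.inv (hbm p), hp, hj]
      have : (s⁻¹ * d j * s) (false, 1) = (false, c (some (j, true))) := by
        rw [Equiv.Perm.mul_apply, Equiv.Perm.mul_apply, Equiv.Perm.inv_eq_iff_eq]
        simp [s, d]
      rw [this]

variable {b p}

lemma IsExp.even_of_mem {f : E → ℤ} (hf : IsExp b p f) {r : E}
    (hr : r ∈ closure (Set.range (nb b p))) : (2 : ℤ) ∣ f r := by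
  have hbm : ∀ x, b x ∈ closure (Set.range b) := fun x => subset_closure ⟨x, rfl⟩
  have hle := closure_nb_le b p
  induction hr using closure_induction with
  | mem r hr =>
    obtain ⟨y, rfl⟩ := hr
    rcases y with _ | ⟨j, _ | _⟩
    · change (2 : ℤ) ∣ f (b p * b p)
      rw [hf.add _ (hbm p) _ (hbm p), hf.self]
      norm_num
    · change (2 : ℤ) ∣ f (b j.1)
      rw [hf.other _ j.2]
      exact dvd_zero _
    · change (2 : ℤ) ∣ f ((b p)⁻¹ * b j.1 * b p)
      rw [hf.add _ (mul_mem (inv_mem (hbm p)) (hbm _)) _ (hbm p), hf.add _ (inv_mem (hbm p)) _ (hbm _),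
        hf.inv (hbm p), hf.self, hf.other _ j.2]
      norm_num
  | one => rw [hf.one]; exact dvd_zero _
  | mul u v hu hv ihu ihv =>
    rw [hf.add _ (hle hu) _ (hle hv)]
    exact dvd_add ihu ihv
  | inv u hu ihu =>
    rw [hf.inv (hle hu)]
    exact (dvd_neg).2 ihu

lemma IsExp.mem_of_even {f : E → ℤ} (hf : IsExp b p f) {u : E}
    (hu : u ∈ closure (Set.range b)) (h2 : (2 : ℤ) ∣ f u) : u ∈ closure (Set.range (nb b p)) := by
  have hbm : ∀ x, b x ∈ closure (Set.range b) := fun x => subset_closure ⟨x, rfl⟩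
  have hle := closure_nb_le b p
  obtain ⟨L, rfl⟩ := exists_ev hu
  obtain ⟨L', e', -, h⟩ := rw_word b p L false
  rw [rep, mul_one] at h
  rcases e' with _ | _
  · rw [rep, one_mul] at h
    rw [h]
    exact ev_mem _
  · exfalso
    rw [rep] at h
    rw [h, hf.add _ (hbm p) _ (hle (ev_mem _)), hf.self] at h2
    have h3 := hf.even_of_mem (ev_mem (b := nb b p) L')
    omega

end cover

section main
variable {E : Type} [Group E]

/-- `K` acts on the free family by conjugations of each member. -/
def PS {X : Type} (b : X → E) (K : Subgroup E) : Prop :=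
  ∀ k ∈ K, ∀ x, ∃ u ∈ closure (Set.range b), k * b x * k⁻¹ = u * b x * u⁻¹

lemma PS.conj_mem {X : Type} {b : X → E} {K : Subgroup E} (h : PS b K) {k u : E} (hk : k ∈ K)
    (hu : u ∈ closure (Set.range b)) : k * u * k⁻¹ ∈ closure (Set.range b) := by
  induction hu using closure_induction with
  | mem u hu =>
    obtain ⟨x, rfl⟩ := hu
    obtain ⟨v, hv, hv'⟩ := h k hk x
    rw [hv']
    exact mul_mem (mul_mem hv (subset_closure ⟨x, rfl⟩)) (inv_mem hv)
  | one => simp
  | mul u v hu hv ihu ihv =>
    have : k * (u * v) * k⁻¹ = (k * u * k⁻¹) * (k * v * k⁻¹) := by group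
    rw [this]
    exact mul_mem ihu ihv
  | inv u hu ihu =>
    have : k * u⁻¹ * k⁻¹ = (k * u * k⁻¹)⁻¹ := by group
    rw [this]
    exact inv_mem ihu

lemma PS.exp_conj {X : Type} {b : X → E} {K : Subgroup E} (h : PS b K) {p : X} {f : E → ℤ}
    (hf : IsExp b p f) {k u : E} (hk : k ∈ K)
    (hu : u ∈ closure (Set.range b)) : f (k * u * k⁻¹) = f u := by
  induction hu using closure_induction with
  | mem u hu =>
    obtain ⟨x, rfl⟩ := hu
    obtain ⟨v, hv, hv'⟩ := h k hk x
    have hx : b x ∈ closure (Set.range b) := subset_closure ⟨x, rfl⟩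
    rw [hv', hf.add _ (mul_mem hv hx) _ (inv_mem hv), hf.add _ hv _ hx, hf.inv hv]
    ring
  | one => simp
  | mul u v hu hv ihu ihv =>
    have : k * (u * v) * k⁻¹ = (k * u * k⁻¹) * (k * v * k⁻¹) := by group
    rw [this, hf.add _ (h.conj_mem hk hu) _ (h.conj_mem hk hv), ihu, ihv, hf.add _ hu _ hv]
  | inv u hu ihu =>
    have : k * u⁻¹ * k⁻¹ = (k * u * k⁻¹)⁻¹ := by group
    rw [this, hf.inv (h.conj_mem hk hu), ihu, hf.inv hu]

/-- the homomorphisms `λ_{pj}` -/
lemma exists_lam {X : Type} {b : X → E} {K : Subgroup E} (hb : FB b) (h : PS b K) {p : X}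
    {f : E → ℤ} (hf : IsExp b p f) :
    ∃ lam : {j : X // j ≠ p} → E → ℤ,
      (∀ j, ∀ k ∈ K, ∀ u ∈ closure (Set.range b), k * b j.1 * k⁻¹ = u * b j.1 * u⁻¹ →
        lam j k = f u) ∧
      (∀ j, ∀ k ∈ K, ∀ k' ∈ K, lam j (k * k') = lam j k + lam j k') := by
  classical
  choose! U hU hU' using h
  have h : PS b K := fun k hk x => ⟨U k x, hU k hk x, hU' k hk x⟩
  have h1 : ∀ j : {j : X // j ≠ p}, ∀ k ∈ K, ∀ u ∈ closure (Set.range b),
      k * b j.1 * k⁻¹ = u * b j.1 * u⁻¹ → f (U k j.1) = f u := by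
    intro j k hk u hu hku
    apply hf.eq_of_conj_eq hb j.2 (hU k hk _) hu
    rw [← hU' k hk, hku]
  refine ⟨fun j k => f (U k j.1), h1, ?_⟩
  intro j k hk k' hk'
  have h2 : k * k' * b j.1 * (k * k')⁻¹ =
      (k * U k' j.1 * k⁻¹ * U k j.1) * b j.1 * (k * U k' j.1 * k⁻¹ * U k j.1)⁻¹ := by
    have e1 := hU' k hk j.1
    have e2 := hU' k' hk' j.1
    calc k * k' * b j.1 * (k * k')⁻¹ = k * (k' * b j.1 * k'⁻¹) * k⁻¹ := by group
      _ = k * (U k' j.1 * b j.1 * (U k' j.1)⁻¹) * k⁻¹ := by rw [e2]
      _ = (k * U k' j.1 * k⁻¹) * (k * b j.1 * k⁻¹) * (k * U k' j.1 * k⁻¹)⁻¹ := by group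
      _ = (k * U k' j.1 * k⁻¹) * (U k j.1 * b j.1 * (U k j.1)⁻¹) * (k * U k' j.1 * k⁻¹)⁻¹ := by
          rw [e1]
      _ = _ := by group
  change f (U (k * k') j.1) = f (U k j.1) + f (U k' j.1)
  have h3 := h.conj_mem hk (hU k' hk' j.1)
  rw [h1 j (k * k') (mul_mem hk hk') _ (mul_mem h3 (hU k hk j.1)) h2,
    hf.add _ h3 _ (hU k hk j.1), h.exp_conj hf hk (hU k' hk' j.1)]
  ring

/-- Main induction. -/
theorem detect_word (ℓ : ℕ) : ∀ (X : Type) [Finite X] [Nontrivial X] (b : X → E) (K : Subgroup E),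
    FB b → (∀ x, b x ∈ K) → PS b K → ∀ L : List (X × Bool), L.length ≤ ℓ → ev b L ≠ 1 →
    Detect K (ev b L) := by
  induction ℓ with
  | zero =>
    intro X _ _ b K _ _ _ L hL hne
    have : L = [] := List.length_eq_zero_iff.1 (Nat.le_zero.1 hL)
    subst this
    exact absurd rfl hne
  | succ ℓ ih =>
    intro X _ _ b K hb hbK hps L hL hne
    classical
    rcases List.eq_nil_or_concat L with rfl | ⟨L₀, ⟨p, ε⟩, rfl⟩
    · exact absurd rfl hne
    rw [List.concat_eq_append] at hL hne ⊢
    have hle : closure (Set.range b) ≤ K := by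
      rw [closure_le]
      rintro _ ⟨x, rfl⟩
      exact hbK x
    have hbm : ∀ x, b x ∈ closure (Set.range b) := fun x => subset_closure ⟨x, rfl⟩
    have hcl := closure_nb_le b p
    obtain ⟨f, hf⟩ := exists_isExp hb p
    obtain ⟨lam, hlam, hadd⟩ := exists_lam hb hps hf
    set w := ev b (L₀ ++ [(p, ε)]) with hw
    have hwF : w ∈ closure (Set.range b) := ev_mem _
    have hlamF : ∀ j, ∀ u ∈ closure (Set.range b), lam j u = f u := by
      intro j u hu
      exact hlam j u (hle hu) u hu rfl
    by_cases hfw : f w = 0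
    · -- pass to the index two cover
      obtain ⟨K₁, hstep, hK₁⟩ := step_of_homs K lam hadd 2 (by norm_num)
      have hps₁ : PS (nb b p) K₁ := by
        intro k hk y
        obtain ⟨hkK, hkl⟩ := (hK₁ k).1 hk
        obtain ⟨u, hu, hu'⟩ := hps k hkK p
        rcases y with _ | ⟨j, _ | _⟩
        · rcases Int.even_or_odd (f u) with he | ho
          · refine ⟨u, hf.mem_of_even hu he.two_dvd, ?_⟩
            change k * (b p * b p) * k⁻¹ = u * (b p * b p) * u⁻¹
            calc k * (b p * b p) * k⁻¹ = (k * b p * k⁻¹) * (k * b p * k⁻¹) := by group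
              _ = (u * b p * u⁻¹) * (u * b p * u⁻¹) := by rw [hu']
              _ = _ := by group
          · refine ⟨u * (b p)⁻¹, hf.mem_of_even (mul_mem hu (inv_mem (hbm p))) ?_, ?_⟩
            · rw [hf.add _ hu _ (inv_mem (hbm p)), hf.inv (hbm p), hf.self]
              obtain ⟨t, ht⟩ := ho
              exact ⟨t, by omega⟩
            · change k * (b p * b p) * k⁻¹ = (u * (b p)⁻¹) * (b p * b p) * (u * (b p)⁻¹)⁻¹
              calc k * (b p * b p) * k⁻¹ = (k * b p * k⁻¹) * (k * b p * k⁻¹) := by group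
                _ = (u * b p * u⁻¹) * (u * b p * u⁻¹) := by rw [hu']
                _ = _ := by group
        · obtain ⟨v, hv, hv'⟩ := hps k hkK j.1
          refine ⟨v, hf.mem_of_even hv ?_, hv'⟩
          rw [← hlam j k hkK v hv hv']
          exact hkl j
        · obtain ⟨v, hv, hv'⟩ := hps k hkK j.1
          refine ⟨u * (b p)⁻¹ * u⁻¹ * v * b p, hf.mem_of_even ?_ ?_, ?_⟩
          · exact mul_mem (mul_mem (mul_mem (mul_mem hu (inv_mem (hbm p))) (inv_mem hu)) hv) (hbm p)
          · have e1 : f (u * (b p)⁻¹ * u⁻¹ * v * b p) = f v := by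
              rw [hf.add _ (mul_mem (mul_mem (mul_mem hu (inv_mem (hbm p))) (inv_mem hu)) hv) _ (hbm p),
                hf.add _ (mul_mem (mul_mem hu (inv_mem (hbm p))) (inv_mem hu)) _ hv,
                hf.add _ (mul_mem hu (inv_mem (hbm p))) _ (inv_mem hu),
                hf.add _ hu _ (inv_mem (hbm p)), hf.inv (hbm p), hf.inv hu, hf.self]
              ring
            rw [e1, ← hlam j k hkK v hv hv']
            exact hkl j
          · change k * ((b p)⁻¹ * b j.1 * b p) * k⁻¹ = (u * (b p)⁻¹ * u⁻¹ * v * b p) *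
              ((b p)⁻¹ * b j.1 * b p) * (u * (b p)⁻¹ * u⁻¹ * v * b p)⁻¹
            calc k * ((b p)⁻¹ * b j.1 * b p) * k⁻¹
                = (k * b p * k⁻¹)⁻¹ * (k * b j.1 * k⁻¹) * (k * b p * k⁻¹) := by group
              _ = (u * b p * u⁻¹)⁻¹ * (v * b j.1 * v⁻¹) * (u * b p * u⁻¹) := by rw [hu', hv']
              _ = _ := by group
      have hnbK : ∀ y, nb b p y ∈ K₁ := by
        intro y
        rw [hK₁]
        refine ⟨hle (nb_mem b p y), fun j => ?_⟩
        rw [hlamF j _ (nb_mem b p y)]
        exact hf.even_of_mem (subset_closure ⟨y, rfl⟩)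
      have hnt : Nontrivial (NX X p) := by
        obtain ⟨q, hq⟩ := exists_ne p
        exact ⟨⟨none, some (⟨q, hq⟩, false), by simp⟩⟩
      have hlen : L₀.length ≤ ℓ := by
        rw [List.length_append, List.length_singleton] at hL
        omega
      have hbF : FB (nb b p) := FB_nb b p hb
      rcases ε with _ | _
      · -- last letter `(b p)⁻¹`
        obtain ⟨L', e', hL', h'⟩ := rw_word b p L₀ false
        have h2 : w * b p = rep b p e' * ev (nb b p) L' := by
          rw [← h', hw, ev_append, ev_cons, ev_nil, rep]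
          simp [mul_assoc]
        have he' : e' = true := by
          by_contra hcon
          have : e' = false := by simpa using hcon
          subst this
          rw [rep, one_mul] at h2
          have h3 := congrArg f h2
          rw [hf.add _ hwF _ (hbm p), hfw, hf.self] at h3
          have h4 := hf.even_of_mem (ev_mem (b := nb b p) L')
          omega
        subst he'
        rw [rep] at h2
        have h3 : (b p)⁻¹ * w * ((b p)⁻¹)⁻¹ = ev (nb b p) L' := by
          rw [inv_inv, mul_assoc, h2, inv_mul_cancel_left]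
        apply Detect.conj (inv_mem (hbK p))
        rw [h3]
        apply Detect.cons hstep
        apply ih (NX X p) (nb b p) K₁ hbF hnbK hps₁ L' (hL'.trans hlen)
        rw [← h3]
        intro h0
        apply hne
        exact conj_eq_one_iff.1 h0
      · obtain ⟨L', e', hL', h'⟩ := rw_word b p L₀ true
        have h2 : w = rep b p e' * ev (nb b p) L' := by
          rw [← h', hw, ev_append, ev_cons, ev_nil, rep]
          simp
        have he' : e' = false := by
          by_contra hcon
          have : e' = true := by simpa using hcon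
          subst this
          rw [rep] at h2
          have h3 := congrArg f h2
          rw [hf.add _ (hbm p) _ (hcl (ev_mem _)), hfw, hf.self] at h3
          have h4 := hf.even_of_mem (ev_mem (b := nb b p) L')
          omega
        subst he'
        rw [rep, one_mul] at h2
        rw [h2]
        apply Detect.cons hstep
        apply ih (NX X p) (nb b p) K₁ hbF hnbK hps₁ L' (hL'.trans hlen)
        rw [← h2]
        exact hne
    · -- detected by a homomorphism to `ℤ`
      obtain ⟨q, hq⟩ := exists_ne p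
      obtain ⟨K₁, hstep, hK₁⟩ := step_of_homs K lam hadd ((f w).natAbs + 1) (Nat.succ_pos _)
      apply Detect.of_step hstep
      intro hmem
      have h1 := ((hK₁ w).1 hmem).2 ⟨q, hq⟩
      rw [hlamF _ w hwF] at h1
      have h2 := Int.natAbs_dvd_natAbs.2 h1
      have h3 := Nat.le_of_dvd (Int.natAbs_pos.2 hfw) h2
      rw [Int.natAbs_natCast] at h3
      omega

/-- Every nontrivial element of the free subgroup is detected. -/
theorem detect_free {X : Type} [Finite X] [Nontrivial X] (b : X → E) (K : Subgroup E)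
    (hb : FB b) (hbK : ∀ x, b x ∈ K) (hps : PS b K) {w : E} (hw : w ∈ closure (Set.range b))
    (hne : w ≠ 1) : Detect K w := by
  obtain ⟨L, rfl⟩ := exists_ev hw
  exact detect_word L.length X b K hb hbK hps L le_rfl hne

end main

end H31Braid
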