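import Pool.Agent.Lib_helper31.Braid.Chain

/-!
Free families, basis-conjugating groups, and the tower of index-two subgroups.
-/

set_option autoImplicit false

namespace H31Braid

open Subgroup

lemma perm_apply_inv {α : Type*} (e : Equiv.Perm α) (x : α) : e (e⁻¹ x) = x :=
  e.apply_symm_apply x

lemma perm_inv_apply {α : Type*} (e : Equiv.Perm α) (x : α) : e⁻¹ (e x) = x :=
  e.symm_apply_apply x

/-- `ψ` is multiplicative on the subgroup `F`. -/
def HomOn {E A : Type} [Group E] [Group A] (F : Subgroup E) (ψ : E → A) : Prop :=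
  ∀ u ∈ F, ∀ v ∈ F, ψ (u * v) = ψ u * ψ v

namespace HomOn
variable {E A : Type} [Group E] [Group A] {F : Subgroup E} {ψ : E → A}

lemma one (h : HomOn F ψ) : ψ 1 = 1 := by
  have := h 1 F.one_mem 1 F.one_mem
  rw [mul_one] at this
  exact left_eq_mul.1 this

lemma inv (h : HomOn F ψ) {u : E} (hu : u ∈ F) : ψ u⁻¹ = (ψ u)⁻¹ := by
  have := h u⁻¹ (F.inv_mem hu) u hu
  rw [inv_mul_cancel, h.one] at this
  exact eq_inv_of_mul_eq_one_left this.symm

end HomOn

/-- The family `b` freely generates the subgroup it generates. -/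
def FB {E : Type} [Group E] {X : Type} (b : X → E) : Prop :=
  ∀ (A : Type) [Group A] (c : X → A), ∃ ψ : E → A,
    HomOn (closure (Set.range b)) ψ ∧ ∀ x, ψ (b x) = c x

/-- Value of a word. -/
def ev {E : Type} [Group E] {X : Type} (b : X → E) (L : List (X × Bool)) : E :=
  (L.map fun x => cond x.2 (b x.1) (b x.1)⁻¹).prod

section basic
variable {E : Type} [Group E] {X : Type} {b : X → E}

lemma ev_nil : ev b [] = 1 := rfl

lemma ev_cons (x : X × Bool) (L : List (X × Bool)) :
    ev b (x :: L) = cond x.2 (b x.1) (b x.1)⁻¹ * ev b L := by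
  simp [ev]

lemma ev_append (L L' : List (X × Bool)) : ev b (L ++ L') = ev b L * ev b L' := by
  simp [ev]

lemma ev_mem (L : List (X × Bool)) : ev b L ∈ closure (Set.range b) := by
  induction L with
  | nil => exact one_mem _
  | cons x L ih =>
    rw [ev_cons]
    refine mul_mem ?_ ih
    have hx : b x.1 ∈ closure (Set.range b) := subset_closure ⟨_, rfl⟩
    cases x.2
    · exact inv_mem hx
    · exact hx

lemma exists_ev {u : E} (hu : u ∈ closure (Set.range b)) : ∃ L, u = ev b L := by
  induction hu using closure_induction_left with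
  | one => exact ⟨[], rfl⟩
  | mul_left x hx y hy ih =>
    obtain ⟨i, rfl⟩ := hx
    obtain ⟨L, rfl⟩ := ih
    exact ⟨(i, true) :: L, by rw [ev_cons]; rfl⟩
  | inv_mul_cancel x hx y hy ih =>
    obtain ⟨i, rfl⟩ := hx
    obtain ⟨L, rfl⟩ := ih
    exact ⟨(i, false) :: L, by rw [ev_cons]; rfl⟩

/-- `f` is the exponent sum of `b p`. -/
structure IsExp (b : X → E) (p : X) (f : E → ℤ) : Prop where
  add : ∀ u ∈ closure (Set.range b), ∀ v ∈ closure (Set.range b), f (u * v) = f u + f v
  self : f (b p) = 1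
  other : ∀ j, j ≠ p → f (b j) = 0

lemma exists_isExp (hb : FB b) (p : X) : ∃ f, IsExp b p f := by
  classical
  obtain ⟨ψ, h1, h2⟩ := hb (Multiplicative ℤ) (fun x => if x = p then Multiplicative.ofAdd 1 else 1)
  refine ⟨fun u => (ψ u).toAdd, ?_, ?_, ?_⟩
  · intro u hu v hv
    rw [h1 u hu v hv]; rfl
  · rw [h2]; simp
  · intro j hj
    rw [h2]; simp [hj]

namespace IsExp
variable {p : X} {f : E → ℤ}

lemma one (h : IsExp b p f) : f 1 = 0 := by
  have := h.add 1 (one_mem _) 1 (one_mem _)
  rw [mul_one] at this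
  omega

lemma inv (h : IsExp b p f) {u : E} (hu : u ∈ closure (Set.range b)) : f u⁻¹ = - f u := by
  have := h.add u⁻¹ (inv_mem hu) u hu
  rw [inv_mul_cancel, h.one] at this
  omega

/-- The exponent sum is well defined on the coset of the centralizer. -/
lemma eq_of_conj_eq (hb : FB b) (h : IsExp b p f) {j : X} (hj : j ≠ p) {u v : E}
    (hu : u ∈ closure (Set.range b)) (hv : v ∈ closure (Set.range b))
    (huv : u * b j * u⁻¹ = v * b j * v⁻¹) : f u = f v := by
  classical
  obtain ⟨ψ, h1, h2⟩ := hb (Equiv.Perm ℚ) (fun x => if x = p then Equiv.mulLeft₀ 2 two_ne_zero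
    else if x = j then Equiv.addRight 1 else 1)
  have hp : ψ (b p) = Equiv.mulLeft₀ 2 two_ne_zero := by rw [h2]; simp
  have hjj : ψ (b j) = Equiv.addRight 1 := by rw [h2]; simp [hj]
  have key : ∀ u ∈ closure (Set.range b), ∀ x y : ℚ, ψ u x - ψ u y = 2 ^ (f u) * (x - y) := by
    intro u hu
    induction hu using closure_induction with
    | mem u hu =>
      obtain ⟨i, rfl⟩ := hu
      intro x y
      by_cases hip : i = p
      · subst hip
        rw [hp, h.self]
        simp only [Equiv.mulLeft₀_apply, zpow_one]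
        ring
      · rw [h.other i hip]
        by_cases hij : i = j
        · subst hij
          rw [hjj]
          simp
        · rw [h2]
          simp [hip, hij]
    | one => intro x y; rw [h1.one, h.one]; simp
    | mul u v hu hv ihu ihv =>
      intro x y
      rw [h1 u hu v hv, h.add u hu v hv, Equiv.Perm.mul_apply, Equiv.Perm.mul_apply, ihu, ihv,
        zpow_add₀ two_ne_zero]
      ring
    | inv u hu ihu =>
      intro x y
      rw [h1.inv hu, h.inv hu]
      have := ihu ((ψ u)⁻¹ x) ((ψ u)⁻¹ y)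
      rw [perm_apply_inv, perm_apply_inv] at this
      rw [this, ← mul_assoc, ← zpow_add₀ two_ne_zero]
      simp
  have key2 : ∀ u ∈ closure (Set.range b), ψ (u * b j * u⁻¹) 0 = 2 ^ (f u) := by
    intro u hu
    have hbj : b j ∈ closure (Set.range b) := subset_closure ⟨_, rfl⟩
    rw [h1 _ (mul_mem hu hbj) _ (inv_mem hu), h1 _ hu _ hbj, h1.inv hu, hjj]
    rw [Equiv.Perm.mul_apply, Equiv.Perm.mul_apply]
    have := key u hu ((Equiv.addRight (1 : ℚ)) ((ψ u)⁻¹ 0)) ((ψ u)⁻¹ 0)
    rw [perm_apply_inv] at this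
    simp only [Equiv.coe_addRight, sub_zero, add_sub_cancel_left, mul_one] at this ⊢
    exact this
  have h3 : (2 : ℚ) ^ (f u) = 2 ^ (f v) := by
    rw [← key2 u hu, ← key2 v hv, huv]
  exact zpow_right_injective₀ (by norm_num) (by norm_num) h3

end IsExp
end basic

/-- A finite family of homomorphisms to `ℤ` defines a legal step. -/
lemma step_of_homs {E : Type} [Group E] (K : Subgroup E) {J : Type} [Finite J] (lam : J → E → ℤ)
    (hadd : ∀ j, ∀ k ∈ K, ∀ k' ∈ K, lam j (k * k') = lam j k + lam j k') (m : ℕ) (hm : 0 < m) :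
    ∃ K₁ : Subgroup E, Step K K₁ ∧ ∀ k, k ∈ K₁ ↔ k ∈ K ∧ ∀ j, (m : ℤ) ∣ lam j k := by
  have : NeZero m := ⟨hm.ne'⟩
  let F : K →* (J → Multiplicative (ZMod m)) :=
    MonoidHom.mk' (fun k j => Multiplicative.ofAdd ((lam j k.1 : ℤ) : ZMod m)) (by
      intro a b
      funext j
      have := hadd j a.1 a.2 b.1 b.2
      change Multiplicative.ofAdd ((lam j (a.1 * b.1) : ℤ) : ZMod m) = _
      rw [this, Int.cast_add, ofAdd_add]
      rfl)
  let Z : J → (K →* Multiplicative ℤ) := fun j =>
    MonoidHom.mk' (fun k => Multiplicative.ofAdd (lam j k.1)) (by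
      intro a b
      have := hadd j a.1 a.2 b.1 b.2
      change Multiplicative.ofAdd (lam j (a.1 * b.1)) = _
      rw [this, ofAdd_add])
  have hF : ∀ k : K, k ∈ F.ker ↔ ∀ j, (m : ℤ) ∣ lam j k.1 := by
    intro k
    rw [MonoidHom.mem_ker]
    constructor
    · intro h j
      have := congrFun h j
      change Multiplicative.ofAdd ((lam j k.1 : ℤ) : ZMod m) = Multiplicative.ofAdd 0 at this
      have h2 : ((lam j k.1 : ℤ) : ZMod m) = 0 := Multiplicative.ofAdd.injective this
      exact (ZMod.intCast_zmod_eq_zero_iff_dvd _ _).1 h2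
    · intro h
      funext j
      change Multiplicative.ofAdd ((lam j k.1 : ℤ) : ZMod m) = Multiplicative.ofAdd 0
      rw [(ZMod.intCast_zmod_eq_zero_iff_dvd _ _).2 (h j)]
  have hmem : ∀ k, k ∈ F.ker.map K.subtype ↔ k ∈ K ∧ ∀ j, (m : ℤ) ∣ lam j k := by
    intro k
    constructor
    · rintro ⟨k', hk', rfl⟩
      exact ⟨k'.2, (hF k').1 hk'⟩
    · rintro ⟨hk, h⟩
      exact ⟨⟨k, hk⟩, (hF ⟨k, hk⟩).2 h, rfl⟩
  refine ⟨F.ker.map K.subtype, ⟨?_, ?_, ?_⟩, hmem⟩
  · rintro _ ⟨k, _, rfl⟩
    exact k.2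
  · have h1 : (F.ker.map K.subtype).subgroupOf K = F.ker := by
      ext k
      rw [mem_subgroupOf, hmem, hF]
      simp
    rw [relIndex, h1]
    have : Finite (J → Multiplicative (ZMod m)) := by
      have : Finite (Multiplicative (ZMod m)) := inferInstanceAs (Finite (ZMod m))
      infer_instance
    exact (finiteIndex_ker F).index_ne_zero
  · rintro x hx ⟨k, hk, hxk⟩
    rw [hmem]
    refine ⟨hx, fun j => ?_⟩
    have h1 : (⟨x, hx⟩ : K) ^ k ∈ ⁅(⊤ : Subgroup K), (⊤ : Subgroup K)⁆ := by
      have h2 : (⁅(⊤ : Subgroup K), (⊤ : Subgroup K)⁆).map K.subtype = ⁅K, K⁆ := by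
        rw [map_commutator, ← MonoidHom.range_eq_map, range_subtype]
      rw [← h2] at hxk
      obtain ⟨y, hy, hyx⟩ := hxk
      have : y = (⟨x, hx⟩ : K) ^ k := Subtype.ext hyx
      rwa [← this]
    have h3 : (Z j) ((⟨x, hx⟩ : K) ^ k) = 1 := by
      have h4 : ⁅(⊤ : Subgroup K), (⊤ : Subgroup K)⁆ ≤ (Z j).ker := by
        rw [commutator_le]
        intro a _ b _
        rw [MonoidHom.mem_ker, map_commutatorElement, commutatorElement_eq_one_iff_mul_comm,
          mul_comm]
      exact h4 h1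
    rw [map_pow] at h3
    have h5 : Multiplicative.ofAdd (k • lam j x) = Multiplicative.ofAdd 0 := by
      rw [ofAdd_nsmul]; exact h3
    have h6 : k • lam j x = 0 := Multiplicative.ofAdd.injective h5
    have h7 : lam j x = 0 := by
      rcases smul_eq_zero.1 h6 with h | h
      · omega
      · exact h
    rw [h7]
    exact dvd_zero _

end H31Braid
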